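import Pool.Agent.Helper54.DY.Det2

/-!
# Determinants of three roots, part 3 (MP_d13a5e_al)

`det_ge`: for a triangle system `Ψ` with simple roots `a, b, c` and any three roots `x, y, z` the determinant of
`x, y, z` is zero or at least the determinant of `a, b, c` in absolute value.
-/

set_option autoImplicit false

namespace DY

open Set

variable {E : Type*} [AddCommGroup E] [Module ℝ E]
variable {Ψ : Set E} {B : E →ₗ[ℝ] E →ₗ[ℝ] ℝ} {a b c x y z t : E} {f g h l ρ σ : E →ₗ[ℝ] ℝ}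

/-! ### Averaging -/

/-- the reflection as a linear map -/
def rfL (B : E →ₗ[ℝ] E →ₗ[ℝ] ℝ) (t : E) : E →ₗ[ℝ] E := LinearMap.id - (2 : ℝ) • (B t).smulRight t

theorem rfL_apply (t u : E) : rfL B t u = rf B t u := by
  unfold rfL DY.rf
  rw [LinearMap.sub_apply, LinearMap.smul_apply, LinearMap.smulRight_apply, LinearMap.id_apply, smul_smul]

private theorem fin_rf (hT : Tri Ψ B a b c) (ht : t ∈ Ψ) {S : Set E} (hS : S.Finite) :
    {u | rf B t u ∈ S}.Finite := by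
  refine (hS.image (rf B t)).subset ?_
  rintro u hu
  exact ⟨_, hu, rfW_rf (hT.one t ht) u⟩

theorem Adm.comp_rf (hT : Tri Ψ B a b c) (hA : Adm Ψ a b c ρ) (ht : t ∈ Ψ) :
    Adm Ψ a b c (ρ ∘ₗ rfL B t) := by
  refine ⟨fun r => (fin_rf hT ht (hA.fin r)).subset ?_, ((fin_rf hT ht hA.neg).union (hT.inv t ht)).subset ?_⟩
  · rintro u ⟨hu, hr⟩
    rw [LinearMap.comp_apply, rfL_apply] at hr
    exact ⟨hT.refl t ht u hu, hr⟩
  · rintro u ⟨hu, hp, hr⟩
    rw [LinearMap.comp_apply, rfL_apply] at hr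
    rcases hT.pos _ (hT.refl t ht u hu) with k | k
    · exact Or.inl ⟨hT.refl t ht u hu, k, hr⟩
    · exact Or.inr ⟨hu, hp, k⟩

/-- nonnegative combinations -/
theorem Adm.add (hT : Tri Ψ B a b c) (hρ : Adm Ψ a b c ρ) (hσ : Adm Ψ a b c σ) {p q : ℝ} (hp : 0 < p)
    (hq : 0 ≤ q) : Adm Ψ a b c (p • ρ + q • σ) := by
  have hv : ∀ u, (p • ρ + q • σ) u = p * ρ u + q * σ u := fun u => by
    rw [LinearMap.add_apply, LinearMap.smul_apply, LinearMap.smul_apply, smul_eq_mul, smul_eq_mul]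
  have hbad : {u | u ∈ Ψ ∧ u ∈ C01 a b c ∧ ¬ (0 < ρ u ∧ 0 < σ u)}.Finite := by
    refine (hρ.neg.union hσ.neg).subset ?_
    rintro u ⟨hu, hp, hn⟩
    by_cases k1 : 0 < ρ u
    · exact Or.inr ⟨hu, hp, not_lt.1 fun k2 => hn ⟨k1, k2⟩⟩
    · exact Or.inl ⟨hu, hp, not_lt.1 k1⟩
  have hbad' : {u | u ∈ Ψ ∧ -u ∈ C01 a b c ∧ ¬ (0 < ρ (-u) ∧ 0 < σ (-u))}.Finite := by
    refine (hbad.image (fun u => -u)).subset ?_
    rintro u ⟨hu, hp, hn⟩
    exact ⟨-u, ⟨hT.neg u hu, hp, hn⟩, neg_neg u⟩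
  have key : ∀ u : E, ∀ r : ℝ, 0 < ρ u → 0 < σ u → |(p • ρ + q • σ) u| ≤ r → |ρ u| ≤ r / p := by
    intro u r h1 h2 h3
    rw [hv, abs_of_pos (by positivity)] at h3
    rw [abs_of_pos h1, le_div_iff₀ hp]
    have := mul_nonneg hq h2.le
    linarith
  refine ⟨fun r => ((hbad.union hbad').union (hρ.fin (r / p))).subset ?_, hbad.subset ?_⟩
  · rintro u ⟨hu, hr⟩
    rcases hT.pos u hu with hpo | hpo
    · by_cases k : 0 < ρ u ∧ 0 < σ u
      · exact Or.inr ⟨hu, key u r k.1 k.2 hr⟩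
      · exact Or.inl (Or.inl ⟨hu, hpo, k⟩)
    · by_cases k : 0 < ρ (-u) ∧ 0 < σ (-u)
      · refine Or.inr ⟨hu, ?_⟩
        rw [← abs_neg, ← map_neg]
        rw [← abs_neg, ← map_neg] at hr
        exact key (-u) r k.1 k.2 hr
      · exact Or.inl (Or.inr ⟨hu, hpo, k⟩)
  · rintro u ⟨hu, hpo, h0⟩
    refine ⟨hu, hpo, fun k => ?_⟩
    rw [hv] at h0
    have h1 := mul_pos hp k.1
    have h2 := mul_nonneg hq k.2.le
    linarith

theorem Ht.adm (ht : Tri Ψ B a b c) (hl : Ht a b c l) : Adm Ψ a b c l := by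
  refine ⟨fun r => ((hl.fin ht r).union ((hl.fin ht r).image fun u => -u)).subset ?_, ?_⟩
  · rintro u ⟨hu, hr⟩
    rcases ht.pos u hu with hp | hp
    · exact Or.inl ⟨hu, hp, (le_abs_self _).trans hr⟩
    · refine Or.inr ⟨-u, ⟨ht.neg u hu, hp, ?_⟩, neg_neg u⟩
      rw [map_neg]
      exact (neg_le_abs _).trans hr
  · refine Set.Finite.subset Set.finite_empty ?_
    rintro u ⟨hu, hp, h0⟩
    have := hl.one_le ht hu hp
    linarith

private theorem avg (hT : Tri Ψ B a b c) (hρ : Adm Ψ a b c ρ) (n : ℕ) : ∀ (R R' : E →ₗ[ℝ] E) (s : ℝ),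
    (∀ σ : E →ₗ[ℝ] ℝ, Adm Ψ a b c σ → Adm Ψ a b c (σ ∘ₗ R)) →
    (∀ σ : E →ₗ[ℝ] ℝ, Adm Ψ a b c σ → Adm Ψ a b c (σ ∘ₗ R')) →
    (∀ v, R (R' v) = v) → (∀ v, R' (R v) = v) → s < 1 → 1 ≤ 2 ^ n * (1 - s) →
    (R x + R' x = (2 * s) • x) → (R y + R' y = (2 * s) • y) →
    ∃ σ : E →ₗ[ℝ] ℝ, Adm Ψ a b c σ ∧ σ x = 0 ∧ σ y = 0 := by
  induction n with
  | zero =>
    intro R R' s hR hR' h1 h2 hs hn hx hy
    have hs0 : s ≤ 0 := by
      rw [pow_zero] at hn
      linarith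
    have k1 := Adm.add hT (hR _ hρ) (hR' _ hρ) (p := 1) (q := 1) one_pos zero_le_one
    have k2 := Adm.add hT k1 hρ (p := 1) (q := -(2 * s)) one_pos (by linarith)
    have key : ∀ v : E, R v + R' v = (2 * s) • v →
        ((1 : ℝ) • ((1 : ℝ) • (ρ ∘ₗ R) + (1 : ℝ) • (ρ ∘ₗ R')) + (-(2 * s)) • ρ) v = 0 := by
      intro v hv
      have e : ρ (R v) + ρ (R' v) = 2 * s * ρ v := by
        rw [← map_add, hv, map_smul, smul_eq_mul]
      simp only [LinearMap.add_apply, LinearMap.smul_apply, LinearMap.comp_apply, smul_eq_mul]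
      linarith
    exact ⟨_, k2, key x hx, key y hy⟩
  | succ n ih =>
    intro R R' s hR hR' h1 h2 hs hn hx hy
    rcases le_or_gt s 0 with hs0 | hs0
    · have k1 := Adm.add hT (hR _ hρ) (hR' _ hρ) (p := 1) (q := 1) one_pos zero_le_one
      have k2 := Adm.add hT k1 hρ (p := 1) (q := -(2 * s)) one_pos (by linarith)
      have key : ∀ v : E, R v + R' v = (2 * s) • v →
          ((1 : ℝ) • ((1 : ℝ) • (ρ ∘ₗ R) + (1 : ℝ) • (ρ ∘ₗ R')) + (-(2 * s)) • ρ) v = 0 := by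
        intro v hv
        have e : ρ (R v) + ρ (R' v) = 2 * s * ρ v := by
          rw [← map_add, hv, map_smul, smul_eq_mul]
        simp only [LinearMap.add_apply, LinearMap.smul_apply, LinearMap.comp_apply, smul_eq_mul]
        linarith
      exact ⟨_, k2, key x hx, key y hy⟩
    · have key : ∀ v : E, R v + R' v = (2 * s) • v →
          R (R v) + R' (R' v) = (2 * (2 * s ^ 2 - 1)) • v := by
        intro v hv
        have e1 : R (R v) + v = (2 * s) • R v := by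
          have := congrArg R hv
          rw [map_add, h1, map_smul] at this
          exact this
        have e2 : v + R' (R' v) = (2 * s) • R' v := by
          have := congrArg R' hv
          rw [map_add, h2, map_smul] at this
          exact this
        have e3 : R (R v) + R' (R' v) = (2 * s) • (R v + R' v) - (2 : ℝ) • v := by
          rw [smul_add, ← e1, ← e2]
          module
        rw [e3, hv]
        module
      refine ih (R ∘ₗ R) (R' ∘ₗ R') (2 * s ^ 2 - 1) ?_ ?_ ?_ ?_ ?_ ?_ ?_ ?_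
      · intro σ hσ
        exact hR _ (hR _ hσ)
      · intro σ hσ
        exact hR' _ (hR' _ hσ)
      · intro v
        rw [LinearMap.comp_apply, LinearMap.comp_apply, h1, h1]
      · intro v
        rw [LinearMap.comp_apply, LinearMap.comp_apply, h2, h2]
      · nlinarith
      · rw [pow_succ] at hn
        have h3 : (0 : ℝ) < 2 ^ n := by positivity
        have h4 : 2 * (1 - s) ≤ 1 - (2 * s ^ 2 - 1) := by nlinarith
        have h5 := mul_le_mul_of_nonneg_left h4 h3.le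
        linarith
      · exact key x hx
      · exact key y hy

/-- an admissible centre on the mirrors of `x` and `y` -/
theorem exists_adm_zero (hT : Tri Ψ B a b c) (hx : x ∈ Ψ) (hy : y ∈ Ψ) (h1 : |B x y| < 1) :
    ∃ σ : E →ₗ[ℝ] ℝ, Adm Ψ a b c σ ∧ σ x = 0 ∧ σ y = 0 := by
  obtain ⟨l, hl⟩ := hT.exists_ht
  have hxx : B x x = 1 := hT.one x hx
  have hyy : B y y = 1 := hT.one y hy
  have hyx : B y x = B x y := hT.symm y x
  have hs : 2 * B x y ^ 2 - 1 < 1 := by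
    have := (sq_lt_one_iff_abs_lt_one _).2 h1
    linarith
  obtain ⟨n, hn⟩ : ∃ n : ℕ, 1 ≤ 2 ^ n * (1 - (2 * B x y ^ 2 - 1)) := by
    obtain ⟨n, hn⟩ := pow_unbounded_of_one_lt (1 / (1 - (2 * B x y ^ 2 - 1))) (one_lt_two (α := ℝ))
    refine ⟨n, ?_⟩
    rw [div_lt_iff₀ (by linarith)] at hn
    exact hn.le
  refine avg hT (hl.adm hT) n (rfL B x ∘ₗ rfL B y) (rfL B y ∘ₗ rfL B x) (2 * B x y ^ 2 - 1) ?_ ?_ ?_ ?_ hs hn
    ?_ ?_
  · intro σ hσ
    exact Adm.comp_rf hT (Adm.comp_rf hT hσ hx) hy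
  · intro σ hσ
    exact Adm.comp_rf hT (Adm.comp_rf hT hσ hy) hx
  · intro v
    simp only [LinearMap.comp_apply, rfL_apply]
    rw [rfW_rf hyy, rfW_rf hxx]
  · intro v
    simp only [LinearMap.comp_apply, rfL_apply]
    rw [rfW_rf hxx, rfW_rf hyy]
  · simp only [LinearMap.comp_apply, rfL_apply]
    unfold DY.rf
    simp only [map_sub, map_smul, smul_eq_mul, hxx, hyy, hyx]
    module
  · simp only [LinearMap.comp_apply, rfL_apply]
    unfold DY.rf
    simp only [map_sub, map_smul, smul_eq_mul, hxx, hyy, hyx]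
    module

/-! ### A chamber at the centre, with the same determinant -/

private theorem vol_flip (h : Tri Ψ B a b c) {f g k : E →ₗ[ℝ] ℝ} :
    |vol f g k (-a) (rf B a b) (rf B a c)| = |vol f g k a b c| := by
  have h1 : B a a = 1 := h.one a h.ha
  have e : vol f g k (-a) (rf B a b) (rf B a c) = vol f g k (rf B a a) (rf B a b) (rf B a c) := by
    rw [rfW_self h1]
  rw [e, vol_rf (b := b) (c := c) h1, abs_neg]
  intro u hu
  simp only [mem_insert_iff, mem_singleton_iff] at hu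
  rcases hu with rfl | rfl | rfl
  · exact ⟨1, 0, 0, by module⟩
  · exact ⟨0, 1, 0, by module⟩
  · exact ⟨0, 0, 1, by module⟩

private theorem vc_step {f g k : E →ₗ[ℝ] ℝ} {q : ℝ} (n : ℕ)
    (ih : ∀ m < n, ∀ a b c : E, Tri Ψ B a b c → Adm Ψ a b c ρ →
      {u | u ∈ Ψ ∧ u ∈ C01 a b c ∧ ρ u < 0}.ncard = m → |vol f g k a b c| = q →
      ∃ a' b' c', Tri Ψ B a' b' c' ∧ 0 ≤ ρ a' ∧ 0 ≤ ρ b' ∧ 0 ≤ ρ c' ∧ |vol f g k a' b' c'| = q)
    (a b c : E) (h : Tri Ψ B a b c) (hρ : Adm Ψ a b c ρ)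
    (hn : {u | u ∈ Ψ ∧ u ∈ C01 a b c ∧ ρ u < 0}.ncard = n) (hq : |vol f g k a b c| = q)
    (ha : ρ a < 0) :
      ∃ a' b' c', Tri Ψ B a' b' c' ∧ 0 ≤ ρ a' ∧ 0 ≤ ρ b' ∧ 0 ≤ ρ c' ∧ |vol f g k a' b' c'| = q := by
  have h1 : B a a = 1 := h.one a h.ha
  have hfin : {u | u ∈ Ψ ∧ u ∈ C01 a b c ∧ ρ u < 0}.Finite :=
    hρ.neg.subset fun u hu => ⟨hu.1, hu.2.1, hu.2.2.le⟩
  have haC : a ∈ C01 a b c := ⟨1, 0, 0, by simp, Or.inr le_rfl, Or.inl rfl, Or.inl rfl⟩
  have hlt : {u | u ∈ Ψ ∧ u ∈ C01 (-a) (rf B a b) (rf B a c) ∧ ρ u < 0}.ncard < n := by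
    rw [← hn]
    apply Set.ncard_lt_ncard _ hfin
    refine ⟨?_, fun hsub => ?_⟩
    · rintro u ⟨hu, hp, h0⟩
      refine ⟨hu, h.of_rfW hu hp ?_, h0⟩
      rintro rfl
      rw [map_neg] at h0
      linarith
    · have h2 := hsub ⟨h.ha, haC, ha⟩
      have h3 := (mem_C01_rfW h1).1 h2.2.1
      rw [rfW_self h1] at h3
      obtain ⟨α, β, γ, h4, g1, g2, g3⟩ := h3
      obtain ⟨h5, -, -⟩ := h.coordW (α := -1) (β := 0) (γ := 0) (by rw [← h4]; module)
      rcases g1 with g1 | g1 <;> linarith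
  exact ih _ hlt _ _ _ h.flipW (hρ.flipW h) rfl (by rw [vol_flip h, hq])

theorem exists_chamber_vol {f g k : E →ₗ[ℝ] ℝ} (h : Tri Ψ B a b c) (hρ : Adm Ψ a b c ρ) :
    ∃ a' b' c', Tri Ψ B a' b' c' ∧ 0 ≤ ρ a' ∧ 0 ≤ ρ b' ∧ 0 ≤ ρ c' ∧
      |vol f g k a' b' c'| = |vol f g k a b c| := by
  suffices H : ∀ n : ℕ, ∀ a b c : E, Tri Ψ B a b c → Adm Ψ a b c ρ →
      {u | u ∈ Ψ ∧ u ∈ C01 a b c ∧ ρ u < 0}.ncard = n → ∀ q, |vol f g k a b c| = q →
      ∃ a' b' c', Tri Ψ B a' b' c' ∧ 0 ≤ ρ a' ∧ 0 ≤ ρ b' ∧ 0 ≤ ρ c' ∧ |vol f g k a' b' c'| = q from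
    H _ a b c h hρ rfl _ rfl
  intro n
  induction n using Nat.strong_induction_on with
  | _ n ih =>
    intro a b c h hρ hn q hq
    have ih' : ∀ m < n, ∀ a b c : E, Tri Ψ B a b c → Adm Ψ a b c ρ →
      {u | u ∈ Ψ ∧ u ∈ C01 a b c ∧ ρ u < 0}.ncard = m → |vol f g k a b c| = q →
      ∃ a' b' c', Tri Ψ B a' b' c' ∧ 0 ≤ ρ a' ∧ 0 ≤ ρ b' ∧ 0 ≤ ρ c' ∧ |vol f g k a' b' c'| = q :=
      fun m hm a b c h1 h2 h3 h4 => ih m hm a b c h1 h2 h3 q h4
    by_cases ha : ρ a < 0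
    · exact vc_step n ih' a b c h hρ hn hq ha
    by_cases hb : ρ b < 0
    · exact vc_step n ih' b a c h.swapW hρ.swapW
        (by rw [C01_swapW]; exact hn) (by rw [vol_swap, abs_neg, hq]) hb
    by_cases hc : ρ c < 0
    · exact vc_step n ih' c b a h.swapW' hρ.swapW'
        (by rw [C01_swapW']; exact hn) (by rw [vol_swap', abs_neg, hq]) hc
    · exact ⟨a, b, c, h, not_lt.mp ha, not_lt.mp hb, not_lt.mp hc, hq⟩

/-- the determinant as a linear form in the third vector -/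
def volL (f g h : E →ₗ[ℝ] ℝ) (x y : E) : E →ₗ[ℝ] ℝ :=
  (f x * g y - f y * g x) • h - (f x * h y - f y * h x) • g + (g x * h y - g y * h x) • f

theorem volL_apply (x y z : E) : volL f g h x y z = vol f g h x y z := by
  unfold volL vol
  simp only [LinearMap.add_apply, LinearMap.sub_apply, LinearMap.smul_apply, smul_eq_mul]
  ring

private theorem real_aux (hT : Tri Ψ B a b c) (hA : Adm Ψ a b c ρ) (hx : x ∈ Ψ) (hy : y ∈ Ψ) (hz : z ∈ Ψ)
    (hx0 : ρ x = 0) (hy0 : ρ y = 0) {u : E} (hu : u ∈ Ψ) (hu0 : ρ u ≠ 0) :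
    vol f g h x y z = 0 ∨ |vol f g h a b c| ≤ |vol f g h x y z| := by
  obtain ⟨a', b', c', h1, k1, k2, k3, k4⟩ := exists_chamber_vol (f := f) (g := g) (k := h) hT hA
  rw [← k4]
  have key : ∀ v ∈ Ψ, ρ v = 0 → ∃ α β γ : ℝ, v = α • a' + β • b' + γ • c' ∧ (0 < ρ a' → α = 0) ∧
      (0 < ρ b' → β = 0) ∧ (0 < ρ c' → γ = 0) := by
    intro v hv hv0
    obtain ⟨α, β, γ, e, hs⟩ := h1.coords hv
    have e1 : α * ρ a' + β * ρ b' + γ * ρ c' = 0 := by
      rw [← hv0, e]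
      simp only [map_add, map_smul, smul_eq_mul]
    refine ⟨α, β, γ, e, ?_⟩
    rcases hs with ⟨s1, s2, s3⟩ | ⟨s1, s2, s3⟩
    · have n1 := mul_nonneg s1.nonneg k1
      have n2 := mul_nonneg s2.nonneg k2
      have n3 := mul_nonneg s3.nonneg k3
      refine ⟨fun hp => ?_, fun hp => ?_, fun hp => ?_⟩
      · have : α * ρ a' = 0 := by linarith
        exact (mul_eq_zero.1 this).resolve_right hp.ne'
      · have : β * ρ b' = 0 := by linarith
        exact (mul_eq_zero.1 this).resolve_right hp.ne'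
      · have : γ * ρ c' = 0 := by linarith
        exact (mul_eq_zero.1 this).resolve_right hp.ne'
    · have n1 := mul_nonneg s1.nonneg k1
      have n2 := mul_nonneg s2.nonneg k2
      have n3 := mul_nonneg s3.nonneg k3
      refine ⟨fun hp => ?_, fun hp => ?_, fun hp => ?_⟩
      · have : α * ρ a' = 0 := by linarith
        exact (mul_eq_zero.1 this).resolve_right hp.ne'
      · have : β * ρ b' = 0 := by linarith
        exact (mul_eq_zero.1 this).resolve_right hp.ne'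
      · have : γ * ρ c' = 0 := by linarith
        exact (mul_eq_zero.1 this).resolve_right hp.ne'
  obtain ⟨x0, x1, x2, ex, p0, p1, p2⟩ := key x hx hx0
  obtain ⟨y0, y1, y2, ey, q0, q1, q2⟩ := key y hy hy0
  by_cases m2 : 0 < ρ c'
  · exact h1.dg_std hx hy (by rw [ex, p2 m2]; module) (by rw [ey, q2 m2]; module) hz
  by_cases m1 : 0 < ρ b'
  · have ht' : Tri Ψ B a' c' b' := h1.swapW.swapW'.swapW
    have h2 := ht'.dg_std (f := f) (g := g) (h := h) hx hy (x0 := x0) (x1 := x2) (y0 := y0) (y1 := y2)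
      (by rw [ex, p1 m1]; module) (by rw [ey, q1 m1]; module) hz
    rw [vol_swap'' a' b' c', abs_neg] at h2
    exact h2
  by_cases m0 : 0 < ρ a'
  · have h2 := h1.swapW'.dg_std (f := f) (g := g) (h := h) hx hy (x0 := x2) (x1 := x1) (y0 := y2) (y1 := y1)
      (by rw [ex, p0 m0]; module) (by rw [ey, q0 m0]; module) hz
    rw [vol_swap' a' b' c', abs_neg] at h2
    exact h2
  exfalso
  apply hu0
  obtain ⟨α, β, γ, e, -⟩ := h1.coords hu
  have z0 : ρ a' = 0 := le_antisymm (not_lt.1 m0) k1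
  have z1 : ρ b' = 0 := le_antisymm (not_lt.1 m1) k2
  have z2 : ρ c' = 0 := le_antisymm (not_lt.1 m2) k3
  rw [e]
  simp only [map_add, map_smul, smul_eq_mul, z0, z1, z2, mul_zero, add_zero]

/-- a pair of roots with crossing mirrors -/
theorem Tri.real (hT : Tri Ψ B a b c) (hx : x ∈ Ψ) (hy : y ∈ Ψ) (hz : z ∈ Ψ) (h1 : |B x y| < 1) :
    vol f g h x y z = 0 ∨ |vol f g h a b c| ≤ |vol f g h x y z| := by
  by_cases hv : vol f g h x y z = 0
  · exact Or.inl hv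
  by_cases hf : Ψ.Finite
  · have hA : Adm Ψ a b c (volL f g h x y) :=
      ⟨fun r => hf.subset fun u hu => hu.1, hf.subset fun u hu => hu.1⟩
    refine real_aux hT hA hx hy hz ?_ ?_ hz (by rw [volL_apply]; exact hv)
    · rw [volL_apply]
      unfold vol
      ring
    · rw [volL_apply]
      unfold vol
      ring
  · obtain ⟨σ, hσ, hx0, hy0⟩ := exists_adm_zero hT hx hy h1
    have : ∃ u ∈ Ψ, σ u ≠ 0 := by
      by_contra hcon
      push_neg at hcon
      apply hf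
      refine (hσ.fin 0).subset fun u hu => ⟨hu, ?_⟩
      rw [hcon u hu, abs_zero]
    obtain ⟨u, hu, hu0⟩ := this
    exact real_aux hT hσ hx hy hz hx0 hy0 hu hu0

/-! ### The theorem -/

private theorem gram (hT : Tri Ψ B a b c) {D : ℝ} (hD : ∀ f g h : E →ₗ[ℝ] ℝ, vol f g h x y z = D * vol f g h a b c) :
    vol (B x) (B y) (B z) x y z = D ^ 2 * vol (B a) (B b) (B c) a b c := by
  have h1 := hD (B x) (B y) (B z)
  have h2 := hD (B a) (B b) (B c)
  have h3 : vol (B x) (B y) (B z) a b c = vol (B a) (B b) (B c) x y z := by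
    unfold vol
    rw [hT.symm x a, hT.symm x b, hT.symm x c, hT.symm y a, hT.symm y b, hT.symm y c, hT.symm z a, hT.symm z b,
      hT.symm z c]
    ring
  rw [h1, h3, h2]
  ring

private theorem gram_val (hT : Tri Ψ B a b c) (hx : x ∈ Ψ) (hy : y ∈ Ψ) (hz : z ∈ Ψ) :
    vol (B x) (B y) (B z) x y z =
      1 + 2 * (B x y * B x z * B y z) - B x y ^ 2 - B x z ^ 2 - B y z ^ 2 := by
  unfold vol
  rw [hT.one x hx, hT.one y hy, hT.one z hz, hT.symm y x, hT.symm z x, hT.symm z y]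
  ring

/-- the last step: three roots with mutually distant mirrors -/
private theorem last (hT : Tri Ψ B a b c) (hx : x ∈ Ψ) (hy : y ∈ Ψ) (hz : z ∈ Ψ)
    (hxy : ∀ M : ℝ, M = -B a b ∨ M = -B a c ∨ M = -B b c → M ≤ -B x y)
    (hxz : ∀ M : ℝ, M = -B a b ∨ M = -B a c ∨ M = -B b c → M ≤ -B x z)
    (hyz : ∀ M : ℝ, M = -B a b ∨ M = -B a c ∨ M = -B b c → M ≤ -B y z)
    (h1 : 1 ≤ -B x y) (h2 : 1 ≤ -B x z) (h3 : 1 ≤ -B y z) :
    vol f g h x y z = 0 ∨ |vol f g h a b c| ≤ |vol f g h x y z| := by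
  right
  obtain ⟨x0, x1, x2, ex, -⟩ := hT.coords hx
  obtain ⟨y0, y1, y2, ey, -⟩ := hT.coords hy
  obtain ⟨z0, z1, z2, ez, -⟩ := hT.coords hz
  obtain ⟨D, hD⟩ : ∃ D : ℝ, D = x0 * (y1 * z2 - y2 * z1) - x1 * (y0 * z2 - y2 * z0) + x2 * (y0 * z1 - y1 * z0) :=
    ⟨_, rfl⟩
  have hvol : ∀ f g h : E →ₗ[ℝ] ℝ, vol f g h x y z = D * vol f g h a b c := by
    intro f g h
    rw [ex, ey, ez, hD]
    exact vol_comb a b c x0 x1 x2 y0 y1 y2 z0 z1 z2
  have hg := gram hT hvol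
  rw [gram_val hT hx hy hz, gram_val hT hT.ha hT.hb hT.hc] at hg
  rw [hvol f g h, abs_mul]
  have p0 : 0 ≤ -B a b := by linarith [hT.B_nonpos]
  have q0 : 0 ≤ -B a c := by linarith [hT.B_nonpos']
  have r0 : 0 ≤ -B b c := by linarith [hT.B_nonpos'']
  obtain ⟨p, hp⟩ : ∃ p, p = -B a b := ⟨_, rfl⟩
  obtain ⟨q, hq⟩ : ∃ q, q = -B a c := ⟨_, rfl⟩
  obtain ⟨r, hr⟩ : ∃ r, r = -B b c := ⟨_, rfl⟩
  obtain ⟨β, hβ⟩ : ∃ β, β = -B x y := ⟨_, rfl⟩
  obtain ⟨γ, hγ⟩ : ∃ γ, γ = -B x z := ⟨_, rfl⟩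
  obtain ⟨δ, hδ⟩ : ∃ δ, δ = -B y z := ⟨_, rfl⟩
  have i1 := hxy p (Or.inl hp)
  have i2 := hxz q (Or.inr (Or.inl hq))
  have i3 := hyz r (Or.inr (Or.inr hr))
  rw [← hp] at p0
  rw [← hq] at q0
  rw [← hr] at r0
  rw [← hβ] at i1 h1
  rw [← hγ] at i2 h2
  rw [← hδ] at i3 h3
  have e1 : B a b = -p := by rw [hp, neg_neg]
  have e2 : B a c = -q := by rw [hq, neg_neg]
  have e3 : B b c = -r := by rw [hr, neg_neg]
  have e4 : B x y = -β := by rw [hβ, neg_neg]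
  have e5 : B x z = -γ := by rw [hγ, neg_neg]
  have e6 : B y z = -δ := by rw [hδ, neg_neg]
  rw [e1, e2, e3, e4, e5, e6] at hg
  have m1 : p * q ≤ β * γ := mul_le_mul i1 i2 q0 (by linarith)
  have m2 : p * q * r ≤ β * γ * δ := mul_le_mul m1 i3 r0 (by positivity)
  have m3 : p ^ 2 ≤ β ^ 2 := pow_le_pow_left₀ p0 i1 2
  have m4 : q ^ 2 ≤ γ ^ 2 := pow_le_pow_left₀ q0 i2 2
  have m5 : r ^ 2 ≤ δ ^ 2 := pow_le_pow_left₀ r0 i3 2
  have m6 : 1 ≤ β ^ 2 := one_le_pow₀ h1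
  have m7 : 1 ≤ γ ^ 2 := one_le_pow₀ h2
  have m8 : 1 ≤ δ ^ 2 := one_le_pow₀ h3
  have m9 : 0 < β * γ * δ := by positivity
  obtain ⟨G, hG⟩ : ∃ G, G = 2 * (p * q * r) + p ^ 2 + q ^ 2 + r ^ 2 - 1 := ⟨_, rfl⟩
  have hg' : D ^ 2 * G = 2 * (β * γ * δ) + β ^ 2 + γ ^ 2 + δ ^ 2 - 1 := by
    rw [hG]
    linarith
  have hG0 : 0 < G := by
    by_contra hcon
    have := mul_nonpos_of_nonneg_of_nonpos (sq_nonneg D) (not_lt.1 hcon)
    linarith
  have hGD : G ≤ D ^ 2 * G := by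
    rw [hg', hG]
    linarith
  have hD1 : 1 ≤ D ^ 2 := by
    by_contra hcon
    have := mul_lt_mul_of_pos_right (not_le.1 hcon) hG0
    linarith
  have hD2 : 1 ≤ |D| := (one_le_sq_iff_one_le_abs D).1 hD1
  have := mul_le_mul_of_nonneg_right hD2 (abs_nonneg (vol f g h a b c))
  linarith

private theorem det_pos (hT : Tri Ψ B a b c) (hx : x ∈ Ψ) (hxp : x ∈ C01 a b c) (hy : y ∈ Ψ)
    (hyp : y ∈ C01 a b c) (hz : z ∈ Ψ) (hzp : z ∈ C01 a b c) :
    vol f g h x y z = 0 ∨ |vol f g h a b c| ≤ |vol f g h x y z| := by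
  obtain ⟨l, hl⟩ := hT.exists_ht
  have key := ht_ind {p : E × E × E | (p.1 ∈ Ψ ∧ p.1 ∈ C01 a b c) ∧ (p.2.1 ∈ Ψ ∧ p.2.1 ∈ C01 a b c) ∧
    (p.2.2 ∈ Ψ ∧ p.2.2 ∈ C01 a b c)} (fun p => l p.1 + l p.2.1 + l p.2.2) (fun r => by
      refine ((hl.fin hT r).prod ((hl.fin hT r).prod (hl.fin hT r))).subset ?_
      rintro p ⟨⟨⟨a1, a2⟩, ⟨a3, a4⟩, ⟨a5, a6⟩⟩, a7⟩
      have b1 := hl.one_le hT a1 a2
      have b2 := hl.one_le hT a3 a4
      have b3 := hl.one_le hT a5 a6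
      exact ⟨⟨a1, a2, by linarith⟩, ⟨a3, a4, by linarith⟩, ⟨a5, a6, by linarith⟩⟩)
    (fun p => vol f g h p.1 p.2.1 p.2.2 = 0 ∨ |vol f g h a b c| ≤ |vol f g h p.1 p.2.1 p.2.2|) ?_ (x, y, z)
    ⟨⟨hx, hxp⟩, ⟨hy, hyp⟩, ⟨hz, hzp⟩⟩
  · exact key
  rintro ⟨x, y, z⟩ ⟨⟨hx, hxp⟩, ⟨hy, hyp⟩, ⟨hz, hzp⟩⟩ ih
  simp only at hx hxp hy hyp hz hzp ih ⊢
  have ih' : ∀ x' y' z' : E, x' ∈ Ψ → x' ∈ C01 a b c → y' ∈ Ψ → y' ∈ C01 a b c → z' ∈ Ψ → z' ∈ C01 a b c →
      l x' + l y' + l z' < l x + l y + l z → |vol f g h x' y' z'| = |vol f g h x y z| →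
      vol f g h x y z = 0 ∨ |vol f g h a b c| ≤ |vol f g h x y z| := by
    intro x' y' z' a1 a2 a3 a4 a5 a6 a7 a8
    rcases ih (x', y', z') ⟨⟨a1, a2⟩, ⟨a3, a4⟩, ⟨a5, a6⟩⟩ a7 with h1 | h1
    · left
      simp only at h1
      rw [h1, abs_zero] at a8
      exact abs_eq_zero.1 a8.symm
    · right
      rw [← a8]
      exact h1
  by_cases hv : vol f g h x y z = 0
  · exact Or.inl hv
  have habs : ∀ s : ℝ, (s = 1 ∨ s = -1) → ∀ v : ℝ, |s * v| = |v| := by
    rintro s (rfl | rfl) v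
    · rw [one_mul]
    · rw [neg_one_mul, abs_neg]
  have hxy : x ≠ y := by
    rintro rfl
    apply hv
    unfold vol
    ring
  have hxz : x ≠ z := by
    rintro rfl
    apply hv
    unfold vol
    ring
  have hyz : y ≠ z := by
    rintro rfl
    apply hv
    unfold vol
    ring
  by_cases cxy : 0 < B x y
  · rcases hT.niel hl hx hxp hy hyp hxy cxy with ⟨s, hs, a1, a2, a3⟩ | ⟨s, hs, a1, a2, a3⟩
    · refine ih' x (s • rf B x y) z hx hxp a1 a2 hz hzp (by linarith) ?_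
      have : vol f g h x (s • rf B x y) z = s * vol f g h x y z := by
        unfold vol DY.rf
        simp only [map_sub, map_smul, smul_eq_mul]
        ring
      rw [this, habs s hs]
    · refine ih' (s • rf B y x) y z a1 a2 hy hyp hz hzp (by linarith) ?_
      have : vol f g h (s • rf B y x) y z = s * vol f g h x y z := by
        unfold vol DY.rf
        simp only [map_sub, map_smul, smul_eq_mul]
        ring
      rw [this, habs s hs]
  by_cases cxz : 0 < B x z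
  · rcases hT.niel hl hx hxp hz hzp hxz cxz with ⟨s, hs, a1, a2, a3⟩ | ⟨s, hs, a1, a2, a3⟩
    · refine ih' x y (s • rf B x z) hx hxp hy hyp a1 a2 (by linarith) ?_
      have : vol f g h x y (s • rf B x z) = s * vol f g h x y z := by
        unfold vol DY.rf
        simp only [map_sub, map_smul, smul_eq_mul]
        ring
      rw [this, habs s hs]
    · refine ih' (s • rf B z x) y z a1 a2 hy hyp hz hzp (by linarith) ?_
      have : vol f g h (s • rf B z x) y z = s * vol f g h x y z := by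
        unfold vol DY.rf
        simp only [map_sub, map_smul, smul_eq_mul]
        ring
      rw [this, habs s hs]
  by_cases cyz : 0 < B y z
  · rcases hT.niel hl hy hyp hz hzp hyz cyz with ⟨s, hs, a1, a2, a3⟩ | ⟨s, hs, a1, a2, a3⟩
    · refine ih' x y (s • rf B y z) hx hxp hy hyp a1 a2 (by linarith) ?_
      have : vol f g h x y (s • rf B y z) = s * vol f g h x y z := by
        unfold vol DY.rf
        simp only [map_sub, map_smul, smul_eq_mul]
        ring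
      rw [this, habs s hs]
    · refine ih' x (s • rf B z y) z hx hxp a1 a2 hz hzp (by linarith) ?_
      have : vol f g h x (s • rf B z y) z = s * vol f g h x y z := by
        unfold vol DY.rf
        simp only [map_sub, map_smul, smul_eq_mul]
        ring
      rw [this, habs s hs]
  rw [not_lt] at cxy cxz cyz
  -- real pairs
  have v1 : vol f g h x z y = -vol f g h x y z := vol_swap'' x y z
  have v2 : vol f g h y z x = vol f g h x y z := by
    unfold vol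
    ring
  by_cases rxy : -1 < B x y
  · exact hT.real hx hy hz (abs_lt.2 ⟨rxy, by linarith⟩)
  by_cases rxz : -1 < B x z
  · have := hT.real (f := f) (g := g) (h := h) hx hz hy (abs_lt.2 ⟨rxz, by linarith⟩)
    rw [v1, neg_eq_zero, abs_neg] at this
    exact this
  by_cases ryz : -1 < B y z
  · have := hT.real (f := f) (g := g) (h := h) hy hz hx (abs_lt.2 ⟨ryz, by linarith⟩)
    rw [v2] at this
    exact this
  rw [not_lt] at rxy rxz ryz
  -- far pairs
  by_contra hcon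
  have fxy : ∀ M : ℝ, M = -B a b ∨ M = -B a c ∨ M = -B b c → M ≤ -B x y := by
    intro M hM
    rcases hT.far (f := f) (g := g) (h := h) hM hx hxp hy hyp rxy with k | k
    · exact absurd (k z hz) hcon
    · exact k
  have fxz : ∀ M : ℝ, M = -B a b ∨ M = -B a c ∨ M = -B b c → M ≤ -B x z := by
    intro M hM
    rcases hT.far (f := f) (g := g) (h := h) hM hx hxp hz hzp rxz with k | k
    · have := k y hy
      rw [v1, neg_eq_zero, abs_neg] at this
      exact absurd this hcon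
    · exact k
  have fyz : ∀ M : ℝ, M = -B a b ∨ M = -B a c ∨ M = -B b c → M ≤ -B y z := by
    intro M hM
    rcases hT.far (f := f) (g := g) (h := h) hM hy hyp hz hzp ryz with k | k
    · have := k x hx
      rw [v2] at this
      exact absurd this hcon
    · exact k
  exact hcon (last hT hx hy hz fxy fxz fyz (by linarith) (by linarith) (by linarith))

/-- **Theorem Det**: the determinant of three roots is zero or at least the determinant of the simple roots -/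
theorem det_ge (hT : Tri Ψ B a b c) (hx : x ∈ Ψ) (hy : y ∈ Ψ) (hz : z ∈ Ψ) :
    vol f g h x y z = 0 ∨ |vol f g h a b c| ≤ |vol f g h x y z| := by
  have hs : ∀ u ∈ Ψ, ∃ s : ℝ, (s = 1 ∨ s = -1) ∧ s • u ∈ Ψ ∧ s • u ∈ C01 a b c := by
    intro u hu
    rcases hT.pos u hu with k | k
    · exact ⟨1, Or.inl rfl, by rw [one_smul]; exact hu, by rw [one_smul]; exact k⟩
    · exact ⟨-1, Or.inr rfl, by rw [neg_one_smul]; exact hT.neg u hu, by rw [neg_one_smul]; exact k⟩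
  obtain ⟨s1, k1, m1, n1⟩ := hs x hx
  obtain ⟨s2, k2, m2, n2⟩ := hs y hy
  obtain ⟨s3, k3, m3, n3⟩ := hs z hz
  have h1 := det_pos (f := f) (g := g) (h := h) hT m1 n1 m2 n2 m3 n3
  have e : vol f g h (s1 • x) (s2 • y) (s3 • z) = s1 * s2 * s3 * vol f g h x y z := by
    unfold vol
    simp only [map_smul, smul_eq_mul]
    ring
  have e2 : |s1 * s2 * s3| = 1 := by
    rcases k1 with rfl | rfl <;> rcases k2 with rfl | rfl <;> rcases k3 with rfl | rfl <;> norm_num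
  rw [e, abs_mul, e2, one_mul] at h1
  rcases h1 with h1 | h1
  · left
    rcases mul_eq_zero.1 h1 with h2 | h2
    · rw [h2, abs_zero] at e2
      exact absurd e2 (by norm_num)
    · exact h2
  · exact Or.inr h1

end DY
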