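import Pool.Agent.Helper9.DY.Foot
import Pool.Agent.Helper70.DY.Im

/-!
# Determinants of three roots, part 1 (MP_d13a5e_al)

`vol f g h x y z` is the determinant of `x, y, z` in the coordinates `f, g, h`.  The final theorem (file `Det3.lean`)
says that `vol x y z` is zero or at least `vol a b c` in absolute value, for all roots `x, y, z` of a triangle
system with simple roots `a, b, c`.  Here: induction on heights, and the case that `x` and `y` are roots of a
standard parabolic.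
-/

set_option autoImplicit false

namespace DY

open Set

/-- induction on a height with finite sublevel sets -/
theorem ht_ind {α : Type*} (S : Set α) (H : α → ℝ) (hf : ∀ r, {u | u ∈ S ∧ H u ≤ r}.Finite) (P : α → Prop)
    (step : ∀ u ∈ S, (∀ v ∈ S, H v < H u → P v) → P u) : ∀ u ∈ S, P u := by
  suffices K : ∀ n : ℕ, ∀ u ∈ S, {v | v ∈ S ∧ H v ≤ H u}.ncard = n → P u from fun u hu => K _ u hu rfl
  intro n
  induction n using Nat.strong_induction_on with
  | _ n ih =>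
    intro u hu hn
    refine step u hu fun v hv hlt => ?_
    refine ih _ ?_ v hv rfl
    rw [← hn]
    apply Set.ncard_lt_ncard _ (hf _)
    refine ⟨fun w hw => ⟨hw.1, hw.2.trans hlt.le⟩, fun hsub => ?_⟩
    have := hsub ⟨hu, le_rfl⟩
    linarith [this.2]

variable {E : Type*} [AddCommGroup E] [Module ℝ E]
variable {Ψ : Set E} {B : E →ₗ[ℝ] E →ₗ[ℝ] ℝ} {a b c x y z : E} {f g h : E →ₗ[ℝ] ℝ}

/-- the determinant of three vectors -/
def vol (f g h : E →ₗ[ℝ] ℝ) (x y z : E) : ℝ :=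
  f x * (g y * h z - g z * h y) - f y * (g x * h z - g z * h x) + f z * (g x * h y - g y * h x)

theorem vol_swap (x y z : E) : vol f g h y x z = -vol f g h x y z := by
  unfold vol
  ring

theorem vol_swap' (x y z : E) : vol f g h z y x = -vol f g h x y z := by
  unfold vol
  ring

theorem vol_swap'' (x y z : E) : vol f g h x z y = -vol f g h x y z := by
  unfold vol
  ring

theorem vol_neg (x y z : E) : vol f g h (-x) y z = -vol f g h x y z := by
  unfold vol
  rw [map_neg, map_neg, map_neg]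
  ring

theorem vol_neg' (x y z : E) : vol f g h x (-y) z = -vol f g h x y z := by
  unfold vol
  rw [map_neg, map_neg, map_neg]
  ring

theorem vol_comb (a b c : E) (x0 x1 x2 y0 y1 y2 z0 z1 z2 : ℝ) :
    vol f g h (x0 • a + x1 • b + x2 • c) (y0 • a + y1 • b + y2 • c) (z0 • a + z1 • b + z2 • c) =
      (x0 * (y1 * z2 - y2 * z1) - x1 * (y0 * z2 - y2 * z0) + x2 * (y0 * z1 - y1 * z0)) *
        vol f g h a b c := by
  unfold vol
  simp only [map_add, map_smul, smul_eq_mul]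
  ring

/-- `r_a` has determinant `-1` -/
theorem vol_rf (h1 : B a a = 1) (hv : ∀ u ∈ ({x, y, z} : Set E), ∃ α β γ : ℝ,
    u = α • a + β • b + γ • c) :
    vol f g h (rf B a x) (rf B a y) (rf B a z) = -vol f g h x y z := by
  obtain ⟨x0, x1, x2, ex⟩ := hv x (by simp)
  obtain ⟨y0, y1, y2, ey⟩ := hv y (by simp)
  obtain ⟨z0, z1, z2, ez⟩ := hv z (by simp)
  have key : ∀ u0 u1 u2 : ℝ, rf B a (u0 • a + u1 • b + u2 • c) =
      (-u0 - 2 * B a b * u1 - 2 * B a c * u2) • a + u1 • b + u2 • c := by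
    intro u0 u1 u2
    unfold DY.rf
    simp only [map_add, map_smul, smul_eq_mul, h1]
    module
  rw [ex, ey, ez, key, key, key, vol_comb, vol_comb]
  ring

/-- `y ↦ r_x y` has determinant one -/
theorem vol_shear (x y z : E) (r : ℝ) : vol f g h x (y - r • x) z = vol f g h x y z := by
  unfold vol
  simp only [map_sub, map_smul, smul_eq_mul]
  ring

theorem vol_shear' (x y z : E) (r : ℝ) : vol f g h (x - r • y) y z = vol f g h x y z := by
  unfold vol
  simp only [map_sub, map_smul, smul_eq_mul]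
  ring

theorem mem_C01_self (a b c : E) : a ∈ C01 a b c := ⟨1, 0, 0, by simp, Or.inr le_rfl, Or.inl rfl, Or.inl rfl⟩

theorem Z1.nonneg {r : ℝ} (h : Z1 r) : 0 ≤ r := by
  rcases h with h | h <;> linarith

/-- the coordinates of a root -/
theorem Tri.coords (ht : Tri Ψ B a b c) {u : E} (hu : u ∈ Ψ) : ∃ α β γ : ℝ, u = α • a + β • b + γ • c ∧
    ((Z1 α ∧ Z1 β ∧ Z1 γ) ∨ (Z1 (-α) ∧ Z1 (-β) ∧ Z1 (-γ))) := by
  rcases ht.pos u hu with ⟨α, β, γ, e, h1, h2, h3⟩ | ⟨α, β, γ, e, h1, h2, h3⟩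
  · exact ⟨α, β, γ, e, Or.inl ⟨h1, h2, h3⟩⟩
  · refine ⟨-α, -β, -γ, ?_, Or.inr ⟨by rwa [neg_neg], by rwa [neg_neg], by rwa [neg_neg]⟩⟩
    have : u = -(α • a + β • b + γ • c) := by rw [← e, neg_neg]
    rw [this]
    module

/-- a height -/
structure Ht (a b c : E) (l : E →ₗ[ℝ] ℝ) : Prop where
  la : l a = 1
  lb : l b = 1
  lc : l c = 1

theorem Tri.exists_ht (ht : Tri Ψ B a b c) : ∃ l : E →ₗ[ℝ] ℝ, Ht a b c l := by
  obtain ⟨l, h1, h2, h3⟩ := exists_form3 ht.indep 1 1 1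
  exact ⟨l, h1, h2, h3⟩

section ht

variable {l : E →ₗ[ℝ] ℝ}

theorem Ht.one_le (hl : Ht a b c l) (ht : Tri Ψ B a b c) {u : E} (hu : u ∈ Ψ) (hp : u ∈ C01 a b c) :
    1 ≤ l u := by
  obtain ⟨α, β, γ, e, h1, h2, h3⟩ := hp
  have h4 : l u = α + β + γ := by
    rw [e]
    simp only [map_add, map_smul, hl.la, hl.lb, hl.lc, smul_eq_mul, mul_one]
  rw [h4]
  rcases h1 with h1 | h1
  · rcases h2 with h2 | h2
    · rcases h3 with h3 | h3
      · exfalso
        have h5 := ht.one u hu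
        rw [e, h1, h2, h3] at h5
        simp at h5
      · linarith
    · linarith [h3.nonneg]
  · linarith [h2.nonneg, h3.nonneg]

theorem Ht.pos_of (hl : Ht a b c l) (ht : Tri Ψ B a b c) {u : E} (hu : u ∈ Ψ) (h0 : 0 < l u) :
    u ∈ C01 a b c := by
  rcases ht.pos u hu with h1 | h1
  · exact h1
  · have := hl.one_le ht (ht.neg u hu) h1
    rw [map_neg] at this
    linarith

theorem Ht.fin (hl : Ht a b c l) (ht : Tri Ψ B a b c) (r : ℝ) :
    {u | u ∈ Ψ ∧ u ∈ C01 a b c ∧ l u ≤ r}.Finite := by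
  refine (ht.fin r).subset ?_
  rintro u ⟨hu, ⟨α, β, γ, e, h1, h2, h3⟩, hr⟩
  refine ⟨hu, α, β, γ, e, h1.nonneg, h2.nonneg, h3.nonneg, ?_⟩
  have h4 : l u = α + β + γ := by
    rw [e]
    simp only [map_add, map_smul, hl.la, hl.lb, hl.lc, smul_eq_mul, mul_one]
  linarith

theorem Ht.rf (hl : Ht a b c l) (u : E) : l (rf B a u) = l u - 2 * B a u := by
  unfold DY.rf
  rw [map_sub, map_smul, hl.la, smul_eq_mul, mul_one]

end ht

private theorem dih_step (ht : Tri Ψ B a b c) {x0 x1 : ℝ}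
    (ih : ∀ p : ℝ × ℝ, p.1 • a + p.2 • b ∈ Ψ → 0 ≤ p.1 → 0 ≤ p.2 → p.1 + p.2 < x0 + x1 → ∀ y0 y1 : ℝ,
      y0 • a + y1 • b ∈ Ψ → p.1 * y1 - p.2 * y0 = 0 ∨ 1 ≤ |p.1 * y1 - p.2 * y0|)
    (hx : x0 • a + x1 • b ∈ Ψ) (hx1 : 0 < x1) (hB : 0 < B a (x0 • a + x1 • b)) (y0 y1 : ℝ)
    (hy : y0 • a + y1 • b ∈ Ψ) : x0 * y1 - x1 * y0 = 0 ∨ 1 ≤ |x0 * y1 - x1 * y0| := by
  have h1 : B a a = 1 := ht.one a ht.ha
  have key : ∀ u0 u1 : ℝ, rf B a (u0 • a + u1 • b) = (-u0 - 2 * B a b * u1) • a + u1 • b := by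
    intro u0 u1
    unfold DY.rf
    simp only [map_add, map_smul, smul_eq_mul, h1]
    module
  have hx' := ht.refl a ht.ha _ hx
  have hy' := ht.refl a ht.ha _ hy
  rw [key] at hx' hy'
  have hBe : B a (x0 • a + x1 • b) = x0 + x1 * B a b := by
    simp only [map_add, map_smul, smul_eq_mul, h1, mul_one]
  have hp : 0 ≤ -x0 - 2 * B a b * x1 := by
    rcases ht.pos _ hx' with ⟨α, β, γ, e, h3, h4, h5⟩ | ⟨α, β, γ, e, h3, h4, h5⟩
    · have e' : (-x0 - 2 * B a b * x1) • a + x1 • b + (0 : ℝ) • c = α • a + β • b + γ • c := by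
        rw [← e]
        module
      obtain ⟨k1, -, -⟩ := ht.coordW e'
      rw [k1]
      exact h3.nonneg
    · exfalso
      have e' : (-(-x0 - 2 * B a b * x1)) • a + (-x1) • b + (0 : ℝ) • c = α • a + β • b + γ • c := by
        rw [← e]
        module
      obtain ⟨-, k2, -⟩ := ht.coordW e'
      linarith [h4.nonneg]
  rw [hBe] at hB
  have h6 := ih (-x0 - 2 * B a b * x1, x1) hx' hp hx1.le (by
    show -x0 - 2 * B a b * x1 + x1 < x0 + x1
    linarith) _ _ hy'
  have e1 : (-x0 - 2 * B a b * x1) * y1 - x1 * (-y0 - 2 * B a b * y1) = -(x0 * y1 - x1 * y0) := by ring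
  simp only [] at h6
  rw [e1, neg_eq_zero, abs_neg] at h6
  exact h6

/-- two roots of a standard parabolic -/
theorem Tri.dih (ht : Tri Ψ B a b c) {x0 x1 y0 y1 : ℝ} (hx : x0 • a + x1 • b ∈ Ψ) (hx0 : 0 ≤ x0)
    (hx1 : 0 ≤ x1) (hy : y0 • a + y1 • b ∈ Ψ) :
    x0 * y1 - x1 * y0 = 0 ∨ 1 ≤ |x0 * y1 - x1 * y0| := by
  have hinj : Function.Injective fun p : ℝ × ℝ => p.1 • a + p.2 • b := by
    intro p q hpq
    have e : p.1 • a + p.2 • b + (0 : ℝ) • c = q.1 • a + q.2 • b + (0 : ℝ) • c := by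
      rw [zero_smul, add_zero, add_zero]
      exact hpq
    obtain ⟨k1, k2, -⟩ := ht.coordW e
    exact Prod.ext k1 k2
  have hfin : ∀ r : ℝ, {p : ℝ × ℝ | (p.1 • a + p.2 • b ∈ Ψ ∧ 0 ≤ p.1 ∧ 0 ≤ p.2) ∧
      p.1 + p.2 ≤ r}.Finite := by
    intro r
    refine ((ht.fin r).preimage (f := fun p : ℝ × ℝ => p.1 • a + p.2 • b) hinj.injOn).subset ?_
    rintro p ⟨⟨h1, h2, h3⟩, h4⟩
    exact ⟨h1, p.1, p.2, 0, by simp, h2, h3, le_rfl, by linarith⟩
  have key := ht_ind {p : ℝ × ℝ | p.1 • a + p.2 • b ∈ Ψ ∧ 0 ≤ p.1 ∧ 0 ≤ p.2} (fun p => p.1 + p.2) hfin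
    (fun p => ∀ y0 y1 : ℝ, y0 • a + y1 • b ∈ Ψ → p.1 * y1 - p.2 * y0 = 0 ∨ 1 ≤ |p.1 * y1 - p.2 * y0|) ?_
  · exact key (x0, x1) ⟨hx, hx0, hx1⟩ y0 y1 hy
  · rintro ⟨u0, u1⟩ ⟨hu, hu0, hu1⟩ ih y0 y1 hy
    simp only at hu hu0 hu1 ih ⊢
    have hn := ht.one _ hu
    have h1 : B a a = 1 := ht.one a ht.ha
    have h2 : B b b = 1 := ht.one b ht.hb
    obtain ⟨α, β, γ, e, hz⟩ := ht.coords hy
    have e' : y0 • a + y1 • b + (0 : ℝ) • c = α • a + β • b + γ • c := by
      rw [← e]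
      module
    obtain ⟨k0, k1, -⟩ := ht.coordW e'
    rcases hu1.eq_or_lt with h0 | hu1p
    · -- `u1 = 0`
      rw [← h0] at hn ⊢
      have h3 : u0 = 1 := by
        simp only [zero_smul, add_zero, map_smul, LinearMap.smul_apply, smul_eq_mul, h1, mul_one] at hn
        nlinarith
      rw [h3, one_mul, zero_mul, sub_zero, k1]
      rcases hz with ⟨-, hz, -⟩ | ⟨-, hz, -⟩
      · rcases hz with hz | hz
        · exact Or.inl hz
        · exact Or.inr (hz.trans (le_abs_self _))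
      · rcases hz with hz | hz
        · left
          linarith
        · exact Or.inr (hz.trans (neg_le_abs _))
    rcases hu0.eq_or_lt with h0 | hu0p
    · rw [← h0] at hn ⊢
      have h3 : u1 = 1 := by
        simp only [zero_smul, zero_add, map_smul, LinearMap.smul_apply, smul_eq_mul, h2, mul_one] at hn
        nlinarith
      rw [h3, one_mul, zero_mul, zero_sub, k0, abs_neg, neg_eq_zero]
      rcases hz with ⟨hz, -, -⟩ | ⟨hz, -, -⟩
      · rcases hz with hz | hz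
        · exact Or.inl hz
        · exact Or.inr (hz.trans (le_abs_self _))
      · rcases hz with hz | hz
        · left
          linarith
        · exact Or.inr (hz.trans (neg_le_abs _))
    -- both positive
    have h5 : u0 * B a (u0 • a + u1 • b) + u1 * B b (u0 • a + u1 • b) = 1 := by
      rw [← hn]
      simp only [map_add, map_smul, LinearMap.add_apply, LinearMap.smul_apply, smul_eq_mul]
      ring
    by_cases h6 : 0 < B a (u0 • a + u1 • b)
    · exact dih_step ht (fun p g1 g2 g3 g4 => ih p ⟨g1, g2, g3⟩ g4) hu hu1p h6 y0 y1 hy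
    · have h7 : 0 < B b (u0 • a + u1 • b) := by
        by_contra h8
        have e1 := mul_nonpos_of_nonneg_of_nonpos hu0p.le (not_lt.1 h6)
        have e2 := mul_nonpos_of_nonneg_of_nonpos hu1p.le (not_lt.1 h8)
        linarith
      have hsw := ht.swapW
      have h8 := dih_step hsw (x0 := u1) (x1 := u0) (fun p g1 g2 g3 g4 y0' y1' hy' => by
        have h9 := ih (p.2, p.1) ⟨by rw [add_comm]; exact g1, g3, g2⟩ (by
          show p.2 + p.1 < u0 + u1
          linarith) y1' y0' (by rw [add_comm]; exact hy')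
        simp only at h9
        have e1 : p.2 * y0' - p.1 * y1' = -(p.1 * y1' - p.2 * y0') := by ring
        rw [e1, neg_eq_zero, abs_neg] at h9
        exact h9) (by rw [add_comm]; exact hu) hu0p (by rw [add_comm (u1 • b)]; exact h7) y1 y0
        (by rw [add_comm]; exact hy)
      have e1 : u1 * y0 - u0 * y1 = -(u0 * y1 - u1 * y0) := by ring
      rw [e1, neg_eq_zero, abs_neg] at h8
      exact h8

/-- two roots of a standard parabolic and a third root -/
theorem Tri.dg_std (ht : Tri Ψ B a b c) (hx : x ∈ Ψ) (hy : y ∈ Ψ) {x0 x1 y0 y1 : ℝ}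
    (ex : x = x0 • a + x1 • b) (ey : y = y0 • a + y1 • b) (hz : z ∈ Ψ) :
    vol f g h x y z = 0 ∨ |vol f g h a b c| ≤ |vol f g h x y z| := by
  obtain ⟨z0, z1, z2, ez, hz2⟩ := ht.coords hz
  have h1 : vol f g h x y z = ((x0 * y1 - x1 * y0) * z2) * vol f g h a b c := by
    have := vol_comb (f := f) (g := g) (h := h) a b c x0 x1 0 y0 y1 0 z0 z1 z2
    rw [zero_smul, add_zero, add_zero, ← ex, ← ey, ← ez] at this
    rw [this]
    ring
  have h2 : x0 * y1 - x1 * y0 = 0 ∨ 1 ≤ |x0 * y1 - x1 * y0| := by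
    obtain ⟨α, β, γ, e, hs⟩ := ht.coords hx
    have e' : x0 • a + x1 • b + (0 : ℝ) • c = α • a + β • b + γ • c := by
      rw [← e, ex]
      module
    obtain ⟨k0, k1, -⟩ := ht.coordW e'
    rw [← k0, ← k1] at hs
    rcases hs with ⟨s1, s2, -⟩ | ⟨s1, s2, -⟩
    · exact ht.dih (ex ▸ hx) s1.nonneg s2.nonneg (ey ▸ hy)
    · have h3 := ht.dih (x0 := -x0) (x1 := -x1) (y0 := y0) (y1 := y1) (by
        have h4 := ht.neg x hx
        rw [ex] at h4
        have : -(x0 • a + x1 • b) = (-x0) • a + (-x1) • b := by module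
        rwa [this] at h4) s1.nonneg s2.nonneg (ey ▸ hy)
      have e1 : -x0 * y1 - -x1 * y0 = -(x0 * y1 - x1 * y0) := by ring
      rw [e1, neg_eq_zero, abs_neg] at h3
      exact h3
  have h3 : z2 = 0 ∨ 1 ≤ |z2| := by
    rcases hz2 with ⟨-, -, h4⟩ | ⟨-, -, h4⟩
    · rcases h4 with h4 | h4
      · exact Or.inl h4
      · exact Or.inr (h4.trans (le_abs_self _))
    · rcases h4 with h4 | h4
      · left
        linarith
      · exact Or.inr (h4.trans (neg_le_abs _))
  rw [h1]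
  rcases h2 with h2 | h2
  · left
    rw [h2]
    ring
  rcases h3 with h3 | h3
  · left
    rw [h3]
    ring
  right
  rw [abs_mul, abs_mul]
  have h4 : 1 ≤ |x0 * y1 - x1 * y0| * |z2| := by nlinarith
  nlinarith [abs_nonneg (vol f g h a b c)]

end DY
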