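import Mathlib.Tactic

/-!
# NGb with `b2 = 0`: the real inequalities (MP_d13a5e_al)

`e + 1 / e = a h1` (`a = 2 b1`), `u = g - e η`, `x = g t + η h + ζ d2`, `s = 2 bO h1 - h2`, `p = s η - ζ`.
-/

set_option autoImplicit false

namespace Pool.Agent.Helper54.DY

/-- the common part -/
theorem p1 {e h2 s η ζ p u : ℝ} (he : 0 < e) (hh2 : 1 ≤ h2) (hη : 0 < η) (hζ : 0 < ζ) (hp : 1 ≤ p)
    (hps : p = s * η - ζ) (N : u * (e * u - (1 - e ^ 2) * η) + e * ζ * (h2 * η - p) = e)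
    (hH : e * h2 * ζ ≤ u) (ob : 2 * e * u ≤ (1 - e ^ 2) * η) (hu : u < 1) :
    1 - u ^ 2 ≤ ζ * (e ^ 2 * h2 * η - p) ∧ s - e ^ 2 * h2 < e := by
  have h0 : 0 < e * h2 * ζ := by positivity
  have hu0 : 0 < u := by linarith only [hH, h0]
  have heu : 0 < e * u := by positivity
  have h1 : e * h2 * ζ * ((1 - e ^ 2) * η - e * u) ≤ u * ((1 - e ^ 2) * η - e * u) :=
    mul_le_mul_of_nonneg_right hH (by linarith only [ob, heu])
  have h2' : e * (1 - e * h2 * ζ * u) ≤ e * (ζ * (e ^ 2 * h2 * η - p)) := by linarith only [N, h1]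
  have h3 := le_of_mul_le_mul_left h2' he
  have h4 : e * h2 * ζ * u ≤ u * u := mul_le_mul_of_nonneg_right hH hu0.le
  have h5 : 1 - u ^ 2 ≤ ζ * (e ^ 2 * h2 * η - p) := by nlinarith only [h3, h4]
  refine ⟨h5, ?_⟩
  have h6 : 0 < 1 - u ^ 2 := by nlinarith only [hu, hu0]
  have h7 : 0 < e ^ 2 * h2 * η - p := (mul_pos_iff_of_pos_left hζ).1 (by linarith only [h5, h6])
  by_contra hcon
  rw [not_lt] at hcon
  have h8 := mul_le_mul_of_nonneg_right hcon hη.le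
  have h9 : e * η < ζ := by linarith only [hps, h7, h8]
  have h10 : e * h2 * (e * η) < e * h2 * ζ := mul_lt_mul_of_pos_left h9 (by positivity)
  have h11 : e * h2 * (e * η) = e ^ 2 * h2 * η := by ring
  linarith only [hp, hH, hu, h7, h10]

/-- the square of `s` -/
theorem p2 {e a h1 h2 s : ℝ} (hs : 1 ≤ s) (hce : e ^ 2 + 1 = a * h1 * e) (hss : h1 ^ 2 = 1 + h2 * s)
    (h : s - e ^ 2 * h2 < e) : a ^ 2 * (s ^ 2 - e * s + e ^ 2) < (1 + e ^ 2) ^ 2 ∨ a = 0 := by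
  rcases eq_or_ne a 0 with ha | ha
  · exact Or.inr ha
  left
  have h1' := mul_lt_mul_of_pos_left h (by linarith only [hs] : 0 < s)
  have h2' : s ^ 2 - e * s + e ^ 2 < e ^ 2 * h1 ^ 2 := by
    rw [hss]
    nlinarith only [h1']
  have h3 : 0 < a ^ 2 := by positivity
  have h4 := mul_lt_mul_of_pos_left h2' h3
  have h5 : (1 + e ^ 2) ^ 2 = a ^ 2 * (e ^ 2 * h1 ^ 2) := by
    have : 1 + e ^ 2 = a * h1 * e := by linarith only [hce]
    rw [this]
    ring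
  linarith only [h4, h5]

/-- `a = 1`, `h2 = 1` -/
theorem a1_flat {e h1 s : ℝ} (he : 0 < e) (he1 : e < 1) (hs : 1 ≤ s) (hce : e ^ 2 + 1 = h1 * e)
    (hss : h1 ^ 2 = 1 + s) (h : s ^ 2 - e * s + e ^ 2 < (1 + e ^ 2) ^ 2) : False := by
  have h1' : e ^ 2 * s = 1 + e ^ 2 + e ^ 4 := by
    have : e ^ 2 * h1 ^ 2 = (e ^ 2 + 1) ^ 2 := by rw [hce]; ring
    nlinarith only [hss, this]
  have h2 : s * (s - e) < s * e ^ 2 := by nlinarith only [h, h1']
  have h3 : s - e < e ^ 2 := lt_of_mul_lt_mul_left h2 (by linarith only [hs])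
  have h4 : e ^ 2 * s < e ^ 2 * (e + e ^ 2) := mul_lt_mul_of_pos_left (by linarith only [h3]) (by positivity)
  have h5 : e ^ 3 < e ^ 2 := by nlinarith only [he1, pow_pos he 2]
  nlinarith only [h1', h4, h5]

theorem a1_gen {e h1 h2 s s' : ℝ} (he : 0 < e) (he1 : e < 1) (hs : 0 < s) (hs' : 1 ≤ s') (hh2 : 0 < h2)
    (hce : e ^ 2 + 1 = h1 * e) (hss : h1 ^ 2 = 1 + h2 * s) (h3 : s ^ 2 = 1 + s' * h1) (h4 : 1 + s ≤ s' ^ 2)
    (h5 : 1 + h1 ≤ h2 ^ 2) (h : s ^ 2 - e * s + e ^ 2 < (1 + e ^ 2) ^ 2) : False := by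
  have k0 : 2 ≤ h1 := by
    by_contra hc
    nlinarith only [he, hce, hc, sq_nonneg (1 - e)]
  have k1 : 1.73 ≤ s := by
    by_contra hc
    nlinarith only [hs, hs', h3, k0, hc]
  have k2 : 1.65 ≤ s' := by
    by_contra hc
    nlinarith only [h3, h4, k0, k1, hc]
  have k3 : 2.07 ≤ s := by
    have : 1.65 * 2 ≤ s' * h1 := mul_le_mul k2 k0 (by norm_num) (by linarith only [k2])
    by_contra hc
    nlinarith only [h3, k1, this, hc]
  have k4 : 1.73 ≤ h2 := by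
    by_contra hc
    nlinarith only [hss, h5, k0, k3, hc]
  have k5 : 2.14 ≤ h1 := by
    have : 1.73 * 2.07 ≤ h2 * s := mul_le_mul k4 k3 (by norm_num) (by linarith only [k4])
    by_contra hc
    nlinarith only [hss, h3, k2, this, hc]
  have k6 : e ≤ 0.69 := by
    by_contra hc
    rw [not_le] at hc
    have := mul_le_mul_of_nonneg_right k5 he.le
    nlinarith only [he1, hce, hc, this]
  have k7 : s * 0.69 ≥ s * e := mul_le_mul_of_nonneg_left k6 hs.le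
  have k8 : e ^ 2 ≤ 0.69 ^ 2 := pow_le_pow_left₀ he.le k6 2
  have k9 : e ^ 4 ≤ 0.69 ^ 4 := pow_le_pow_left₀ he.le k6 4
  nlinarith only [h, k3, k7, k8]

theorem a1_gap {e h1 s : ℝ} (he : 0 < e) (he1 : e < 1) (hs : 1 ≤ s) (hce : e ^ 2 + 1 = h1 * e)
    (h3 : s ^ 2 = 1 + h1) (h4 : 1 ≤ s * (s ^ 2 - 1) * (s ^ 2 - 3))
    (h : s ^ 2 - e * s + e ^ 2 < (1 + e ^ 2) ^ 2) : False := by
  have k0 : 2 ≤ h1 := by
    by_contra hc
    nlinarith only [he, hce, hc, sq_nonneg (1 - e)]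
  have h1e : h1 = s ^ 2 - 1 := by linarith only [h3]
  rcases le_or_gt 2 s with h5 | h5
  · have k1 : 3 ≤ h1 := by nlinarith only [h1e, h5]
    have k2 : e ≤ 0.4 := by
      by_contra hc
      rw [not_le] at hc
      have := mul_le_mul_of_nonneg_right k1 he.le
      nlinarith only [he1, hce, k1, hc]
    have k8 : e ^ 4 ≤ 0.4 ^ 4 := pow_le_pow_left₀ he.le k2 4
    have k9 : e ^ 2 ≤ 0.4 ^ 2 := pow_le_pow_left₀ he.le k2 2
    have k7 : s * e ≤ s * 0.4 := mul_le_mul_of_nonneg_left k2 (by linarith only [h5])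
    nlinarith only [h3, h, k0, k8, k9]
  · have k1 : 19 / 6 ≤ s ^ 2 := by
      have k2 : 0 ≤ s ^ 2 - 3 := by linarith only [k0, h1e]
      have k3 : s * (s ^ 2 - 1) ≤ 6 := by nlinarith only [hs, h5]
      have k4 := mul_le_mul_of_nonneg_right k3 k2
      linarith only [h4, k4]
    have k2 : 13 / 6 ≤ h1 := by linarith only [h1e, k1]
    have k3 : e ≤ 2 / 3 := by
      by_contra hc
      rw [not_le] at hc
      have := mul_le_mul_of_nonneg_right k2 he.le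
      nlinarith only [he1, hce, hc, this]
    have k8 : e ^ 4 ≤ (2 / 3) ^ 4 := pow_le_pow_left₀ he.le k3 4
    have k9 : e ^ 2 ≤ (2 / 3) ^ 2 := pow_le_pow_left₀ he.le k3 2
    have k7 : s * e ≤ 2 * (2 / 3) := mul_le_mul h5.le k3 he.le (by norm_num)
    nlinarith only [h3, h, k0, k9, k7]

/-- `a ≥ √2`, `s > 1` -/
theorem a2_gen {e a h1 h2 s s' : ℝ} (he : 0 < e) (he1 : e < 1) (ha : 0 < a) (ha2 : 2 ≤ a ^ 2) (hs : 1 ≤ s)
    (hs' : 1 ≤ s') (hh1 : 1 ≤ h1) (hh2 : 1 ≤ h2) (hce : e ^ 2 + 1 = a * h1 * e) (hss : h1 ^ 2 = 1 + h2 * s)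
    (h3 : s ^ 2 = 1 + s' * h1) (h : a ^ 2 * (s ^ 2 - e * s + e ^ 2) < (1 + e ^ 2) ^ 2) : False := by
  have k0 : 1.41 ≤ h1 := by
    have : 1 ≤ h2 * s := by nlinarith only [hs, hh2]
    by_contra hc
    nlinarith only [hh1, hss, this, hc]
  have k1 : 1.55 ≤ s := by
    have : 1.41 ≤ s' * h1 := by nlinarith only [hs', k0]
    by_contra hc
    nlinarith only [hh2, hss, h3, this, hc]
  have k2 : 1.59 ≤ h1 := by
    have : 1.55 ≤ h2 * s := by nlinarith only [hh2, k1]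
    by_contra hc
    nlinarith only [hss, k0, this, hc]
  have k3 : 1.41 ≤ a := by
    by_contra hc
    nlinarith only [ha, ha2, hc]
  have k4 : 2.24 ≤ a * h1 := by
    have : 1.41 * 1.59 ≤ a * h1 := mul_le_mul k3 k2 (by norm_num) ha.le
    linarith only [this]
  have k5 : e ≤ 0.62 := by
    by_contra hc
    rw [not_le] at hc
    have := mul_le_mul_of_nonneg_right k4 he.le
    nlinarith only [he1, hce, hc, this]
  have k6 : 0 ≤ s ^ 2 - e * s + e ^ 2 := by nlinarith only []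
  have k7 := mul_le_mul_of_nonneg_right ha2 k6
  have k8 : e ^ 4 ≤ 0.62 ^ 4 := pow_le_pow_left₀ he.le k5 4
  have k9 : s * e ≤ s * 0.62 := mul_le_mul_of_nonneg_left k5 (by linarith only [k1])
  nlinarith only [h, k1, k5, k7, k8]

/-- `a ≥ (1 + √5) / 2`, `s = 1` -/
theorem a3_one {e a h1 : ℝ} (he : 0 < e) (he1 : e < 1) (ha : 0 < a) (ha2 : a + 1 ≤ a ^ 2) (hh1 : 0 < h1)
    (hl : 2 ≤ h1 ^ 2) (hce : e ^ 2 + 1 = a * h1 * e)
    (h : a ^ 2 * (1 ^ 2 - e * 1 + e ^ 2) < (1 + e ^ 2) ^ 2) : False := by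
  have k1 : 1.6 ≤ a := by
    by_contra hc
    nlinarith only [ha, ha2, hc]
  have k2 : 1.41 ≤ h1 := by
    by_contra hc
    nlinarith only [hh1, hl, hc]
  have k3 : 2.25 ≤ a * h1 := by
    have : 1.6 * 1.41 ≤ a * h1 := mul_le_mul k1 k2 (by norm_num) ha.le
    linarith only [this]
  have k4 : e ≤ 0.61 := by
    by_contra hc
    rw [not_le] at hc
    have := mul_le_mul_of_nonneg_right k3 he.le
    nlinarith only [he1, hce, k3, hc]
  have k5 : 2.6 ≤ a ^ 2 := by linarith only [ha2, k1]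
  have k6 : 0 ≤ 1 ^ 2 - e * 1 + e ^ 2 := by nlinarith only []
  have k7 := mul_le_mul_of_nonneg_right k5 k6
  have k8 : e ^ 2 ≤ 0.61 ^ 2 := pow_le_pow_left₀ he.le k4 2
  nlinarith only [h, k7, k8, mul_nonneg (sq_nonneg e) (by linarith only [k8] : 0 ≤ 0.61 ^ 2 - e ^ 2)]

theorem gold_e {e a : ℝ} (he : 0 < e) (he1 : e < 1) (ha : 0 < a) (ha2 : a ^ 2 = 2)
    (gold : a * e * (1 + e ^ 2) ≤ 1 + e ^ 4) : e < 0.6 := by
  by_contra hc
  rw [not_lt] at hc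
  have k1 : 1.41 ≤ a := by
    by_contra hc
    nlinarith only [ha, ha2, hc]
  have k2 : 1.41 * (e * (1 + e ^ 2)) ≤ a * (e * (1 + e ^ 2)) :=
    mul_le_mul_of_nonneg_right k1 (by positivity)
  have k3 : 1.41 * (e * (1 + e ^ 2)) ≤ 1 + e ^ 4 := by linarith only [gold, k2]
  nlinarith only [k3, mul_nonneg (by linarith only [hc] : 0 ≤ e - 0.6) (by linarith only [he1] : 0 ≤ 1 - e),
    mul_nonneg (mul_nonneg (by linarith only [hc] : 0 ≤ e - 0.6) (by linarith only [he1] : 0 ≤ 1 - e)) (sq_nonneg e),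
    mul_nonneg (mul_nonneg (by linarith only [hc] : 0 ≤ e - 0.6) (by linarith only [he1] : 0 ≤ 1 - e)) he.le]

/-- `a = √2`, `s = 1`, `W ≥ 1` -/
theorem a2_one_W1 {e a h1 h2 η ζ u W g : ℝ} (he : 0 < e) (he6 : e < 0.6) (ha2 : a ^ 2 = 2)
    (hce : e ^ 2 + 1 = a * h1 * e) (hss : h1 ^ 2 = 1 + h2) (hη : 0 < η) (hζ : 0 < ζ) (hu1 : u < 1)
    (hu0 : 0 < u) (h5 : 1 - u ^ 2 ≤ ζ * (e ^ 2 * h2 * η - (η - ζ))) (hg : g = u + e * η)
    (hW : W = g - a * h1 * ζ) (hW1 : 1 ≤ W) : False := by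
  have k1 : e ^ 2 * h2 = (1 + e ^ 4) / 2 := by
    have : 2 * (e ^ 2 * h1 ^ 2) = (e ^ 2 + 1) ^ 2 := by rw [hce, ← ha2]; ring
    nlinarith only [hss, this]
  have k2 : 0 < 1 - u ^ 2 := by nlinarith only [hu1, hu0]
  have k3 : 0 < e ^ 2 * h2 * η - (η - ζ) := (mul_pos_iff_of_pos_left hζ).1 (by linarith only [h5, k2])
  rw [k1] at k3
  have k4 : a * h1 * ζ < e * η := by linarith only [hu1, hg, hW, hW1]
  have k5 : e * (a * h1 * ζ) < e * (e * η) := mul_lt_mul_of_pos_left k4 he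
  have k6 : e * (a * h1 * ζ) = (1 + e ^ 2) * ζ := by linear_combination (-ζ) * hce
  rw [k6] at k5
  have k7 : (1 - e ^ 4) / 2 * η < ζ := by linarith only [k3]
  have k8 : (1 + e ^ 2) * ((1 - e ^ 4) / 2 * η) < (1 + e ^ 2) * ζ := mul_lt_mul_of_pos_left k7 (by positivity)
  have k9 : η * ((1 + e ^ 2) * (1 - e ^ 4) / 2) < η * e ^ 2 := by linarith only [k5, k8]
  have k10 := lt_of_mul_lt_mul_left k9 hη.le
  have k11 : e ^ 2 ≤ 0.6 ^ 2 := pow_le_pow_left₀ he.le he6.le 2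
  have k12 : 0 < e ^ 2 := by positivity
  nlinarith only [k10, k11, mul_nonneg k12.le (by linarith only [k11] : 0 ≤ 0.6 ^ 2 - e ^ 2)]

/-- `a = √2`, `s = 1`, `W = 0` -/
theorem a2_one_W0 {e a ζ p : ℝ} (he : 0 < e) (he6 : e < 0.6) (ha : 0 < a) (ha2 : a ^ 2 = 2)
    (gold : a * e * (1 + e ^ 2) ≤ 1 + e ^ 4) (hζ : 0 < ζ) (hp : 1 ≤ p)
    (N : (1 + e ^ 2) ^ 2 * ζ * (ζ - p) + 2 * e ^ 2 * (p ^ 2 - 1) = 0)
    (hH : 2 * e ^ 2 * p ≤ (1 - e ^ 4) * ζ) (hu : ζ < e + e ^ 2 * p) : False := by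
  obtain ⟨q, hq⟩ : ∃ q, q = e ^ 2 := ⟨_, rfl⟩
  obtain ⟨π, hπ⟩ : ∃ π, π = e * p := ⟨_, rfl⟩
  have e4 : e ^ 4 = q ^ 2 := by rw [hq]; ring
  rw [e4, ← hq] at gold
  rw [← hq] at N
  rw [e4, ← hq] at hH
  rw [← hq] at hu
  have q0 : 0 < q := by rw [hq]; positivity
  have q1 : q < 0.36 := by rw [hq]; nlinarith only [he, he6]
  have π0 : 0 < π := by rw [hπ]; positivity
  have πe : e ≤ π := by rw [hπ]; nlinarith
  -- `π (1 + q ^ 2) < 1 - q ^ 2`
  have A : π * (1 + q ^ 2) < 1 - q ^ 2 := by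
    have h1 : (1 - q ^ 2) * ζ < (1 - q ^ 2) * (e + q * p) := mul_lt_mul_of_pos_left hu (by nlinarith only [q0, q1])
    have h2 : e * (π * (1 + q ^ 2)) < e * (1 - q ^ 2) := by
      have h3 : e * (π * (1 + q ^ 2)) = q * p * (1 + q ^ 2) := by rw [hπ, hq]; ring
      rw [h3]
      nlinarith only [hH, h1]
    exact lt_of_mul_lt_mul_left h2 he.le
  -- `2 q ^ 2 p ^ 2 < (1 - q) ^ 2`
  have Bb : 2 * q ^ 2 * p ^ 2 < (1 - q) ^ 2 := by
    have h1 : a * e * (1 + q) * π ≤ (1 + q ^ 2) * π := mul_le_mul_of_nonneg_right gold π0.le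
    have h2 : (1 + q) * (a * e * π) < (1 + q) * (1 - q) := by nlinarith only [A, h1]
    have h3 : a * e * π < 1 - q := lt_of_mul_lt_mul_left h2 (by linarith only [q0])
    have h4 : 0 < a * e * π := by positivity
    have h5 : (a * e * π) ^ 2 < (1 - q) ^ 2 := by nlinarith only [h3, h4]
    have h6 : (a * e * π) ^ 2 = 2 * q ^ 2 * p ^ 2 := by
      rw [hπ]
      have : (a * e * (e * p)) ^ 2 = a ^ 2 * (e ^ 2) ^ 2 * p ^ 2 := by ring
      rw [this, ha2, ← hq]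
    linarith only [h5, h6]
  obtain ⟨zL, hzL⟩ : ∃ zL, zL = 2 * q * p / (1 - q ^ 2) := ⟨_, rfl⟩
  have hq2 : 0 < 1 - q ^ 2 := by nlinarith only [π0, A]
  have hzL' : (1 - q ^ 2) * zL = 2 * q * p := by
    rw [hzL]
    field_simp
  have zLle : zL ≤ ζ := le_of_mul_le_mul_left (by rw [hzL']; exact hH) hq2
  obtain ⟨Z, hZ⟩ : ∃ Z, Z = e + q * p := ⟨_, rfl⟩
  rw [← hZ] at hu
  obtain ⟨G, hG⟩ : ∃ G : ℝ → ℝ, G = fun z => (1 + q) ^ 2 * z * (z - p) + 2 * q * (p ^ 2 - 1) := ⟨_, rfl⟩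
  have gL : G zL < 0 := by
    have h1 : (1 - q ^ 2) ^ 2 * G zL = 2 * q * (1 + q) ^ 2 * (2 * q ^ 2 * p ^ 2 - (1 - q) ^ 2) := by
      rw [hG]
      have : (1 - q ^ 2) ^ 2 * ((1 + q) ^ 2 * zL * (zL - p) + 2 * q * (p ^ 2 - 1)) =
        (1 + q) ^ 2 * ((1 - q ^ 2) * zL) * ((1 - q ^ 2) * zL - (1 - q ^ 2) * p) +
          2 * q * (p ^ 2 - 1) * (1 - q ^ 2) ^ 2 := by ring
      simp only
      rw [this, hzL']
      ring
    have h2 : (1 - q ^ 2) ^ 2 * G zL < 0 := by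
      rw [h1]
      exact mul_neg_of_pos_of_neg (by positivity) (by linarith only [Bb])
    by_contra h3
    rw [not_lt] at h3
    have := mul_nonneg (sq_nonneg (1 - q ^ 2)) h3
    linarith
  -- `G Z ≤ 0`
  have GZ : G Z ≤ 0 := by
    obtain ⟨H, hH'⟩ : ∃ H : ℝ → ℝ, H = fun w => (1 + q) ^ 2 * (1 + w) * (q - (1 - q) * w) + 2 * w ^ 2 - 2 * q :=
      ⟨_, rfl⟩
    have h1 : G Z = H π := by
      rw [hG, hH']
      simp only
      rw [hZ, hπ]
      have e2 : e ^ 2 = q := hq.symm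
      linear_combination ((1 + q) ^ 2 + (1 + q) ^ 2 * (p ^ 2 * (1 - q)) - 2 * p ^ 2) * e2
    rw [h1]
    obtain ⟨P, hP⟩ : ∃ P, P = (1 - q ^ 2) / (1 + q ^ 2) := ⟨_, rfl⟩
    have hP' : (1 + q ^ 2) * P = 1 - q ^ 2 := by
      rw [hP]
      field_simp
    have πP : π < P := by
      have : (1 + q ^ 2) * π < (1 + q ^ 2) * P := by rw [hP']; linarith only [A]
      exact lt_of_mul_lt_mul_left this (by positivity)
    have He : H e ≤ 0 := by
      rw [hH']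
      simp only
      have : (1 + q) ^ 2 * (1 + e) * (q - (1 - q) * e) + 2 * e ^ 2 - 2 * q =
        -((1 + q) ^ 2 * (1 + e) * e * (1 - q - e)) := by
        have e2 : e ^ 2 = q := hq.symm
        linear_combination (2 - (1 + q) ^ 2 * (1 + e)) * e2
      rw [this]
      have h2 : 0 ≤ 1 - q - e := by linarith only [he6, q1]
      have := mul_nonneg (by positivity : 0 ≤ (1 + q) ^ 2 * (1 + e) * e) h2
      linarith only [this]
    have HP : H P ≤ 0 := by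
      have h2 : (1 + q ^ 2) ^ 2 * H P = 2 * q * (2 * q * (1 + q) ^ 2 - (1 + q ^ 2) ^ 2) := by
        rw [hH']
        simp only
        have : (1 + q ^ 2) ^ 2 * ((1 + q) ^ 2 * (1 + P) * (q - (1 - q) * P) + 2 * P ^ 2 - 2 * q) =
          (1 + q) ^ 2 * ((1 + q ^ 2) + (1 + q ^ 2) * P) * (q * (1 + q ^ 2) - (1 - q) * ((1 + q ^ 2) * P)) +
            2 * ((1 + q ^ 2) * P) ^ 2 - 2 * q * (1 + q ^ 2) ^ 2 := by ring
        rw [this, hP']
        ring
      have h3 : 2 * q * (1 + q) ^ 2 ≤ (1 + q ^ 2) ^ 2 := by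
        have h4 : (a * e * (1 + q)) ^ 2 ≤ (1 + q ^ 2) ^ 2 := pow_le_pow_left₀ (by positivity) gold 2
        have h5 : (a * e * (1 + q)) ^ 2 = a ^ 2 * e ^ 2 * (1 + q) ^ 2 := by ring
        rw [h5, ha2, ← hq] at h4
        exact h4
      have h4 : (1 + q ^ 2) ^ 2 * H P ≤ 0 := by
        rw [h2]
        exact mul_nonpos_of_nonneg_of_nonpos (by positivity) (by linarith only [h3])
      by_contra h5
      rw [not_le] at h5
      have := mul_pos (by positivity : 0 < (1 + q ^ 2) ^ 2) h5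
      linarith only [h4, this]
    have h6 : (P - e) * H π = (P - π) * H e + (π - e) * H P -
        (2 - (1 + q) * (1 - q ^ 2)) * (π - e) * (P - π) * (P - e) := by
      rw [hH']
      simp only
      ring
    have h7 : 0 ≤ 2 - (1 + q) * (1 - q ^ 2) := by nlinarith only [Bb, hq2]
    have h8 : (P - e) * H π ≤ 0 := by
      rw [h6]
      have i1 := mul_nonpos_of_nonneg_of_nonpos (by linarith only [πP] : 0 ≤ P - π) He
      have i2 := mul_nonpos_of_nonneg_of_nonpos (by linarith only [πe] : 0 ≤ π - e) HP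
      have i3 := mul_nonneg (mul_nonneg (mul_nonneg h7 (by linarith only [πe] : 0 ≤ π - e)) (by linarith only [πP] : 0 ≤ P - π))
        (by linarith only [πe, πP] : 0 ≤ P - e)
      linarith only [i1, i2, i3]
    by_contra h9
    rw [not_le] at h9
    have := mul_pos (by linarith only [πe, πP] : 0 < P - e) h9
    linarith only [h8, this]
  have h1 : (Z - zL) * G ζ = (Z - ζ) * G zL + (ζ - zL) * G Z -
      (1 + q) ^ 2 * (ζ - zL) * (Z - ζ) * (Z - zL) := by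
    rw [hG]
    simp only
    ring
  have h2 : G ζ = 0 := by
    rw [hG]
    exact N
  rw [h2, mul_zero] at h1
  have i1 := mul_neg_of_pos_of_neg (by linarith only [hu] : 0 < Z - ζ) gL
  have i2 := mul_nonpos_of_nonneg_of_nonpos (by linarith only [zLle] : 0 ≤ ζ - zL) GZ
  have i3 := mul_nonneg (mul_nonneg (mul_nonneg (sq_nonneg (1 + q)) (by linarith only [zLle] : 0 ≤ ζ - zL))
    (by linarith only [hu] : 0 ≤ Z - ζ)) (by linarith only [zLle, hu] : 0 ≤ Z - zL)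
  linarith only [h1, i1, i2, i3]

end Pool.Agent.Helper54.DY
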