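import Pool.Agent.Helper57.DY.NGim
import Pool.Agent.Helper54.DY.Det3
import Pool.Agent.Helper54.DY.NGb0r

/-!
# NG with `b2 = 0` (MP_d13a5e_al)

With `b2 = -B t d2 = 0` and `φ d2 < 0` the point `F` is always beyond `V_2`.  `ngb0_ofa`: the alternative `OFA`,
`ngb0_im`: the limit gap.
-/

set_option autoImplicit false

namespace Pool.Agent.Helper54.DY

open _root_.DY (Z1 C01 Tri Adm Str Loc Xs ORt OFA Good Beyond Canon CP sq sq_zero sq_one sq_two sq_succ sq_cassini
  sq_incr sq_le_succ pu pu_val vol vol_comb det_ge)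
open Pool.Agent.Helper62.DY (RT rt_of_tri om_lim ult_low canon_neg)
open Pool.Agent.Helper57.DY (rt_b1s exists_e beyond_fin w_sq gap_data steep_of_gap)

section Real

variable {b1 b2 bO : ℝ} {R : ℝ → ℝ → ℝ → Prop}

/-- `a = 1` -/
private theorem lemG_a1 (hR : RT b1 b2 bO R) {h1 h2 s s' e : ℝ} (hh : R 0 h1 h2) (hs : R 0 h1 s) (hh1 : 1 ≤ h1)
    (hh2 : 1 ≤ h2) (s1 : 1 ≤ s) (hsd : s = 2 * bO * h1 - h2) (hs'd : s' = 2 * bO * s - h1) (hs' : 1 ≤ s')
    (he : 0 < e) (he1 : e < 1) (hce : e ^ 2 + 1 = h1 * e) (hss : h1 ^ 2 = 1 + h2 * s)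
    (h : s ^ 2 - e * s + e ^ 2 < (1 + e ^ 2) ^ 2) : False := by
  have h2' : 2 < h1 := by
    by_contra hc
    nlinarith only [he, hce, hc, mul_pos (by linarith only [he1] : 0 < 1 - e) (by linarith only [he1] : 0 < 1 - e)]
  have n1 := hR.n _ _ _ hs
  have r3 := hR.r1 _ _ _ hs
  have i3 : 2 * b1 * 0 + 2 * bO * s - h1 = s' := by rw [hs'd]; ring
  rw [i3] at r3
  have hs2 : s ^ 2 = 1 + s' * h1 := by
    rw [hs'd]
    linear_combination n1
  -- `al2`
  obtain ⟨al2, hal⟩ : ∃ al2, al2 = 2 * bO * h2 - h1 := ⟨_, rfl⟩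
  have r4 := hR.r1 _ _ _ hh
  have i4 : 2 * b1 * 0 + 2 * bO * h2 - h1 = al2 := by rw [hal]; ring
  rw [i4] at r4
  have n0 := hR.n _ _ _ hh
  have hh2s : h2 ^ 2 = 1 + h1 * al2 := by
    rw [hal]
    linear_combination n0
  have z4 := (hR.z2 r4 (by linarith only [hh2])).2.1
  rcases z4 with z4 | z4
  · have k1 : h2 = 1 := by
      rw [z4] at hh2s
      nlinarith only [hh2, hh2s]
    refine a1_flat he he1 s1 hce ?_ h
    rw [hss, k1]
    ring
  · -- `s''`
    obtain ⟨s'', hs''⟩ : ∃ s'', s'' = 2 * bO * s' - s := ⟨_, rfl⟩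
    have n3 := hR.n _ _ _ r3
    have r5 := hR.r2 _ _ _ r3
    have i5 : 2 * b2 * 0 + 2 * bO * s' - s = s'' := by rw [hs'']; ring
    rw [i5] at r5
    have z5 := (hR.z1 r5 (by linarith only [hs'])).2.2
    have hs'2 : s' ^ 2 = 1 + s * s'' := by
      rw [hs'']
      linear_combination n3
    rcases z5 with z5 | z5
    · have k1 : s' = 1 := by
        rw [z5] at hs'2
        nlinarith only [hs', hs'2]
      have hl : 2 * bO = s := by
        rw [z5, k1] at hs''
        linarith only [hs'']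
      rw [hl] at hs'd hsd hal
      have hs'd' : h1 = s ^ 2 - 1 := by
        rw [k1] at hs'd
        linarith only [hs'd]
      have hh2' : h2 = s ^ 3 - 2 * s := by
        rw [hs'd'] at hsd
        linarith only [hsd]
      have hal' : al2 = s ^ 4 - 3 * s ^ 2 + 1 := by
        rw [hal, hh2', hs'd']
        ring
      have r6 := hR.r2 _ _ _ r4
      have i6 : 2 * b2 * 0 + 2 * bO * al2 - h2 = s * (s ^ 2 - 1) * (s ^ 2 - 3) := by
        rw [hl, hal', hh2']
        ring
      rw [i6] at r6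
      have z6 := (hR.z1 r6 (by linarith only [z4])).2.2
      have p6 : 0 < s * (s ^ 2 - 1) * (s ^ 2 - 3) := by
        refine mul_pos (mul_pos (by linarith only [s1]) ?_) ?_ <;> linarith
      rcases z6 with z6 | z6
      · linarith only [p6, z6]
      · exact a1_gap he he1 s1 hce (by rw [hs2, k1]; ring) z6 h
    · refine a1_gen he he1 (by linarith only [s1]) hs' (by linarith only [hh2]) hce hss hs2 ?_ ?_ h
      · nlinarith only [s1, hs'2, z5]
      · nlinarith only [h2', hh2s, z4]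

/-- the label of `t` and `d1`: `a² > 2` gives `a² ≥ a + 1` -/
private theorem gold_t (hR : RT b1 b2 bO R) (h1 : 1 ≤ 2 * b1) (h2 : 2 < (2 * b1) ^ 2) :
    2 * b1 + 1 ≤ (2 * b1) ^ 2 := by
  obtain ⟨a, ha⟩ : ∃ a, a = 2 * b1 := ⟨_, rfl⟩
  rw [← ha] at h1 h2 ⊢
  have r1 := hR.r1 _ _ _ hR.e0
  have i1 : 2 * b1 * 1 + 2 * bO * 0 - 0 = a := by rw [ha]; ring
  rw [i1] at r1
  have r2 := hR.r0 _ _ _ r1
  have i2 : 2 * b1 * a + 2 * b2 * 0 - 1 = a ^ 2 - 1 := by rw [ha]; ring
  rw [i2] at r2
  have r3 := hR.r1 _ _ _ r2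
  have i3 : 2 * b1 * (a ^ 2 - 1) + 2 * bO * 0 - a = a * (a ^ 2 - 2) := by rw [ha]; ring
  rw [i3] at r3
  have z3 := (hR.z0 r3 (by linarith only [h2])).2.1
  have p3 : 0 < a * (a ^ 2 - 2) := mul_pos (by linarith only [h1]) (by linarith only [h2])
  rcases z3 with z3 | z3
  · linarith only [p3, z3]
  · by_contra hc
    rw [not_le] at hc
    nlinarith only [z3, mul_pos (by linarith only [h1] : 0 < a + 1) (by linarith only [hc] : 0 < a + 1 - a ^ 2)]

/-- `a ≥ √2`, `s = 1` -/
private theorem lemG_one (hR : RT b1 b2 bO R) {a l h1 h2 e g x1 η ζ p u W y : ℝ} (ha : a = 2 * b1)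
    (hl : l = 2 * bO) (hh : R 0 h1 h2) (k2 : h1 = l) (k3 : h2 = h1 ^ 2 - 1) (k4 : 2 ≤ h1 ^ 2)
    (c1 : 1 ≤ a) (c2 : 2 ≤ a ^ 2) (he : 0 < e) (he1 : e < 1) (hce : e ^ 2 + 1 = a * h1 * e)
    (k7 : a ^ 2 * (1 ^ 2 - e * 1 + e ^ 2) < (1 + e ^ 2) ^ 2) (e1 : x1 = h1 * η) (hpd' : p = η - ζ)
    (hp : 1 ≤ p)
    (n2 : g ^ 2 + x1 ^ 2 + p ^ 2 - 2 * b1 * g * x1 - 2 * 0 * g * p - 2 * bO * x1 * p = 1)
    (hη : 0 < η) (hζ : 0 < ζ) (hu : u = g - e * η) (hcon : u < 1) (hu0 : 0 < u)
    (k5 : 1 - u ^ 2 ≤ ζ * (e ^ 2 * h2 * η - (η - ζ))) (hH : e * (η + h2 * ζ) ≤ g) (zW : Z1 W)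
    (hW : W = a * y - g) (hy : y = a * g + l * p - x1) (hh1 : 1 ≤ h1) : False := by
  have ha0 : 0 < a := by linarith only [c1]
  rcases c2.lt_or_eq with c4 | c4
  · exact a3_one he he1 ha0 (by rw [ha] at c4 ⊢; exact gold_t hR (by linarith only [ha, c1]) c4) (by linarith only [hh1]) k4 hce k7
  · have ha2 : a ^ 2 = 2 := c4.symm
    -- `h1² ≥ h1 + 1`
    have k8 : 2 < h1 ^ 2 := by
      have i6 : (e ^ 2 + 1) ^ 2 = 2 * h1 ^ 2 * e ^ 2 := by
        rw [hce, ← ha2]
        ring
      have i7 : 0 < (1 - e ^ 2) ^ 2 := by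
        have : 0 < 1 - e ^ 2 := by nlinarith only [he, he1]
        positivity
      have i8 : 0 < (2 * h1 ^ 2 - 4) * e ^ 2 := by linarith only [i6, i7]
      have i9 := (mul_pos_iff_of_pos_right (by positivity : 0 < e ^ 2)).1 i8
      linarith only [i9]
    have k9 : h1 + 1 ≤ h1 ^ 2 := by
      have r6 := hR.r1 _ _ _ hh
      have i6 : 2 * b1 * 0 + 2 * bO * h2 - h1 = h1 * (h1 ^ 2 - 2) := by
        rw [← hl, ← k2, k3]
        ring
      rw [i6] at r6
      have p6 : 0 < h1 * (h1 ^ 2 - 2) := mul_pos (by linarith only [hh1]) (by linarith only [k8])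
      rcases (hR.z2 r6 (by linarith only [k3, k4])).2.1 with h' | h'
      · linarith only [p6, h']
      · by_contra hc
        rw [not_le] at hc
        nlinarith only [h', mul_pos (by linarith only [k8, hc] : 0 < h1 + 1) (by linarith only [hc] : 0 < h1 + 1 - h1 ^ 2)]
    have gold : a * e * (1 + e ^ 2) ≤ 1 + e ^ 4 := by
      have i6 : 1 + e ^ 2 = a * h1 * e := by linarith only [hce]
      have i7 : a * e * (1 + e ^ 2) = 2 * h1 * e ^ 2 := by
        rw [i6, ← ha2]
        ring
      have i8 : 1 + e ^ 4 = 2 * h1 ^ 2 * e ^ 2 - 2 * e ^ 2 := by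
        have : (1 + e ^ 2) ^ 2 = 2 * h1 ^ 2 * e ^ 2 := by
          rw [i6, ← ha2]
          ring
        linarith only [this]
      rw [i7, i8]
      have := mul_le_mul_of_nonneg_right k9 (by positivity : 0 ≤ 2 * e ^ 2)
      linarith only [this]
    have he6 := gold_e he he1 ha0 ha2 gold
    have hWe : W = g - a * h1 * ζ := by
      rw [hW, hy, e1, hpd', ← k2]
      linear_combination g * ha2
    rcases zW with h' | h'
    · -- `W = 0`
      have hge : g = a * h1 * ζ := by linarith only [hWe, h']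
      have i6 : (1 + e ^ 2) ^ 2 = 2 * h1 ^ 2 * e ^ 2 := by
        have : 1 + e ^ 2 = a * h1 * e := by linarith only [hce]
        rw [this, ← ha2]
        ring
      have hηe : η = p + ζ := by linarith only [hpd']
      refine a2_one_W0 he he6 ha0 ha2 gold hζ hp ?_ ?_ ?_
      · rw [i6]
        rw [hge, e1, hηe, ← ha, ← hl, ← k2] at n2
        linear_combination (2 * e ^ 2) * n2 + 2 * e ^ 2 * h1 ^ 2 * ζ * p * ha2
      · have i7 : e * (p + h1 ^ 2 * ζ) ≤ a * h1 * ζ := by
          rw [← hge]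
          have : e * (η + h2 * ζ) = e * (p + h1 ^ 2 * ζ) := by
            rw [hηe, k3]
            ring
          linarith only [hH, this]
        have i8 := mul_le_mul_of_nonneg_left i7 (by linarith only [he] : 0 ≤ 2 * e)
        have i9 : 2 * e * (a * h1 * ζ) = 2 * (1 + e ^ 2) * ζ := by
          linear_combination (-2 * ζ) * hce
        rw [i9] at i8
        have i10 : 2 * e * (e * (p + h1 ^ 2 * ζ)) = 2 * e ^ 2 * p + (1 + e ^ 2) ^ 2 * ζ := by
          rw [i6]
          ring
        rw [i10] at i8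
        linarith only [i8]
      · have i7 : e * u < e * 1 := mul_lt_mul_of_pos_left hcon he
        rw [hu, hge, hηe] at i7
        have i8 : e * (a * h1 * ζ - e * (p + ζ)) = ζ - e ^ 2 * p := by
          linear_combination (-ζ) * hce
        rw [i8] at i7
        linarith only [i7]
    · exact a2_one_W1 he he6 ha2 hce (by linarith only [k3]) hη hζ hcon hu0 k5
        (by linarith only [hu]) hWe h'

/-- **Lemma G** -/
theorem lemG (hR : RT b1 b2 bO R) (hb2 : b2 = 0) {h1 h2 e g x1 x2 η ζ : ℝ}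
    (hh : R 0 h1 h2) (hh1 : 1 ≤ h1) (hh2 : 1 ≤ h2) (he : 0 < e) (hce : e ^ 2 + 1 = 2 * b1 * h1 * e)
    (hx : R g x1 x2) (hg : 1 ≤ g) (e1 : x1 = h1 * η) (e2 : x2 = ζ + h2 * η)
    (hη : 0 < η) (hζ : 0 < ζ) (ob : g ≤ b1 * x1) (hp : 1 ≤ 2 * bO * x1 - x2) (hH : e * (η + h2 * ζ) ≤ g) :
    1 ≤ g - e * η := by
  subst hb2
  by_contra hcon
  rw [not_le] at hcon
  obtain ⟨a, ha⟩ : ∃ a, a = 2 * b1 := ⟨_, rfl⟩
  obtain ⟨l, hl⟩ : ∃ l, l = 2 * bO := ⟨_, rfl⟩
  obtain ⟨s, hs⟩ : ∃ s, s = l * h1 - h2 := ⟨_, rfl⟩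
  obtain ⟨u, hu⟩ : ∃ u, u = g - e * η := ⟨_, rfl⟩
  obtain ⟨p, hpd⟩ : ∃ p, p = s * η - ζ := ⟨_, rfl⟩
  have hpp : 2 * bO * x1 - x2 = p := by
    rw [hpd, hs, e1, e2, hl]
    ring
  rw [hpp] at hp
  rw [← hu] at hcon
  rw [← ha] at hce
  have r1 := hR.r2 _ _ _ hh
  have i1 : 2 * 0 * 0 + 2 * bO * h1 - h2 = s := by rw [hs, hl]; ring
  rw [i1] at r1
  have s1 : 1 ≤ s := by
    rcases (hR.z1 r1 (by linarith only [hh1])).2.2 with h | h
    · exfalso
      rw [h] at hpd
      linarith only [hζ, hp, hpd]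
    · exact h
  have nh := hR.n _ _ _ hh
  have hss : h1 ^ 2 = 1 + h2 * s := by
    rw [hs, hl]
    linear_combination nh
  have n := hR.n _ _ _ hx
  have N : u * (e * u - (1 - e ^ 2) * η) + e * ζ * (h2 * η - p) = e := by
    rw [e1, e2] at n
    rw [hu, hpd, hs, hl]
    rw [ha] at hce
    linear_combination e * n - g * η * hce - e * η ^ 2 * nh
  have hH' : e * h2 * ζ ≤ u := by
    rw [hu]
    linarith only [hH]
  have ob' : 2 * e * u ≤ (1 - e ^ 2) * η := by
    have k1 := mul_le_mul_of_nonneg_left ob (by linarith only [he] : 0 ≤ 2 * e)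
    have k2 : 2 * e * (b1 * x1) = (e ^ 2 + 1) * η := by
      rw [hce, e1, ha]
      ring
    rw [hu]
    linarith only [k1, k2]
  obtain ⟨k5, k6⟩ := p1 he hh2 hη hζ hp hpd N hH' ob' hcon
  have hu0 : 0 < u := by
    have : 0 < e * h2 * ζ := by positivity
    linarith only [hH', this]
  have he1 : e < 1 := by
    have h0 : 0 < 2 * e * u := by positivity
    have h1' : 0 < (1 - e ^ 2) * η := by linarith only [ob', h0]
    have h2' : 0 < 1 - e ^ 2 := by
      by_contra hc
      have := mul_nonpos_of_nonpos_of_nonneg (not_lt.1 hc) hη.le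
      linarith only [h1', this]
    by_contra hc
    have := one_le_pow₀ (not_lt.1 hc) (n := 2)
    linarith only [h2', this]
  have k7 : a ^ 2 * (s ^ 2 - e * s + e ^ 2) < (1 + e ^ 2) ^ 2 := by
    rcases p2 s1 hce hss k6 with h | h
    · exact h
    · exfalso
      have h' : e ^ 2 + 1 = 0 := by
        rw [hce, h]
        ring
      linarith only [h', sq_nonneg e]
  -- the root `(g; y, p)` and `W`
  have r2 := hR.r2 _ _ _ hx
  have i2 : 2 * 0 * g + 2 * bO * x1 - x2 = p := by linarith only [hpp]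
  rw [i2] at r2
  have n2 := hR.n _ _ _ r2
  obtain ⟨y, hy⟩ : ∃ y, y = a * g + l * p - x1 := ⟨_, rfl⟩
  have r3 := hR.r1 _ _ _ r2
  have i3 : 2 * b1 * g + 2 * bO * p - x1 = y := by rw [hy, ha, hl]
  rw [i3] at r3
  have hx10 : 0 < x1 := by
    rw [e1]
    positivity
  have hy0 : 0 < y := by
    have k1 : y * x1 = g ^ 2 + p ^ 2 - 1 := by
      rw [hy, ha, hl]
      linear_combination -n2
    by_contra hc
    have := mul_nonpos_of_nonpos_of_nonneg (not_lt.1 hc) hx10.le
    have k2 := one_le_pow₀ hg (n := 2)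
    have k3 := one_le_pow₀ hp (n := 2)
    linarith only [k1, this, k2, k3]
  obtain ⟨W, hW⟩ : ∃ W, W = a * y - g := ⟨_, rfl⟩
  have r4 := hR.r0 _ _ _ r3
  have i4 : 2 * b1 * y + 2 * 0 * p - g = W := by rw [hW, ha]; ring
  rw [i4] at r4
  have zW := (hR.z1 r4 hy0).1
  -- `s'`
  obtain ⟨s', hs'⟩ : ∃ s', s' = l * s - h1 := ⟨_, rfl⟩
  have r5 := hR.r1 _ _ _ r1
  have i5 : 2 * b1 * 0 + 2 * bO * s - h1 = s' := by rw [hs', hl]; ring
  rw [i5] at r5
  have zs' := (hR.z2 r5 (by linarith only [s1])).2.1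
  have n1 := hR.n _ _ _ r1
  have hs2 : s ^ 2 = 1 + s' * h1 := by
    rw [hs', hl]
    linear_combination n1
  have hl0 : 0 < l := by
    by_contra hc
    have := mul_nonpos_of_nonpos_of_nonneg (not_lt.1 hc) (by linarith only [hh1] : 0 ≤ h1)
    linarith only [hh2, hs, s1, this]
  rcases rt_b1s hR with c1 | c1 | ⟨c1, c2⟩
  · exfalso
    have h' : e ^ 2 + 1 = 0 := by
      rw [hce, ha, c1]
      ring
    linarith only [h', sq_nonneg e]
  · -- `a = 1`
    rw [← ha] at c1
    rw [c1] at hce k7 hW hy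
    rcases zs' with h | h
    · have k1 : W = -(l * ζ) := by
        rw [hW, hy, hpd, e1]
        linear_combination η * h - η * hs'
      have k2 := mul_pos hl0 hζ
      rcases zW with h' | h' <;> linarith only [k1, k2, h']
    · exact lemG_a1 hR hh r1 hh1 hh2 s1 (by rw [hs, hl]) (by rw [hs', hl]) h he he1 (by linarith only [hce]) hss
        (by linarith only [k7])
  · -- `a² ≥ 2`
    have c3 := c2
    rw [← ha] at c1 c2
    have ha0 : 0 < a := by linarith only [c1]
    rcases zs' with h | h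
    · -- `s = 1`
      have k1 : s = 1 := by
        rw [h, zero_mul, add_zero] at hs2
        exact (pow_eq_one_iff_of_nonneg (by linarith only [s1]) (by norm_num)).1 hs2
      have k2 : h1 = l := by
        rw [h, k1] at hs'
        linarith only [hs']
      have k3 : h2 = h1 ^ 2 - 1 := by
        rw [k1] at hss
        linarith only [hss]
      rw [k1] at k7 hpd
      have hpd' : p = η - ζ := by linarith only [hpd]
      have k4 : 2 ≤ h1 ^ 2 := by linarith only [hh2, k3]
      exact lemG_one hR ha hl hh k2 k3 k4 c1 c2 he he1 hce k7 e1 hpd' hp n2 hη hζ hu hcon hu0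
        (by rw [← hpd']; exact k5) hH zW hW hy hh1
    · exact a2_gen he he1 ha0 c2 s1 h hh1 hh2 hce hss hs2 k7

end Real

variable {E : Type*} [AddCommGroup E] [Module ℝ E] {Ψ : Set E} {B : E →ₗ[ℝ] E →ₗ[ℝ] ℝ}
  {ρ φ : E →ₗ[ℝ] ℝ} {t d1 d2 x x' : E} {g x1 x2 g' x1' x2' : ℝ}

/-- Theorem Det in coordinates -/
theorem det_crd (hT : Tri Ψ B t d1 d2) {x0 x1 x2 y0 y1 y2 z0 z1 z2 : ℝ} (hx : x0 • t + x1 • d1 + x2 • d2 ∈ Ψ)
    (hy : y0 • t + y1 • d1 + y2 • d2 ∈ Ψ) (hz : z0 • t + z1 • d1 + z2 • d2 ∈ Ψ) :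
    x0 * (y1 * z2 - y2 * z1) - x1 * (y0 * z2 - y2 * z0) + x2 * (y0 * z1 - y1 * z0) = 0 ∨
    1 ≤ |x0 * (y1 * z2 - y2 * z1) - x1 * (y0 * z2 - y2 * z0) + x2 * (y0 * z1 - y1 * z0)| := by
  obtain ⟨f, f1, f2, f3⟩ := _root_.DY.exists_form3 hT.indep 1 0 0
  obtain ⟨k, k1, k2, k3⟩ := _root_.DY.exists_form3 hT.indep 0 1 0
  obtain ⟨h, h1, h2, h3⟩ := _root_.DY.exists_form3 hT.indep 0 0 1
  have hv : vol f k h t d1 d2 = 1 := by
    unfold vol
    rw [f1, f2, f3, k1, k2, k3, h1, h2, h3]
    norm_num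
  have := det_ge (f := f) (g := k) (h := h) hT hx hy hz
  rw [vol_comb, hv, mul_one, abs_one] at this
  exact this

/-- `ρ h > -e` -/
theorem rho_gt (L : Loc Ψ B ρ φ t d1 d2 x x') {be1 be2 : ℝ} (rh : ORt Ψ B d1 d2 be1 be2)
    (hc : 1 ≤ be1 * -B t d1 + be2 * -B t d2) {e : ℝ}
    (he : e ^ 2 - 2 * (be1 * -B t d1 + be2 * -B t d2) * e + 1 = 0) (he0 : 0 < e) (he1 : e ≤ 1) :
    -e < be1 * ρ d1 + be2 * ρ d2 := by
  have h1 := ult_low (L.str_h rh) hc he he0 he1
  rcases h1.lt_or_eq with h2 | h2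
  · exact h2
  exfalso
  have hcp := L.cpt64 rh
  have ecp : -B t d1 * be1 + -B t d2 * be2 = be1 * -B t d1 + be2 * -B t d2 := by ring
  rw [ecp] at hcp
  obtain ⟨c, hcd⟩ : ∃ c, c = be1 * -B t d1 + be2 * -B t d2 := ⟨_, rfl⟩
  rw [← hcd] at hc he hcp
  have hinj : Function.Injective fun k : ℕ => pu c t (be1 • d1 + be2 • d2) k := by
    intro k l hkl
    have h2 : pu c t (be1 • d1 + be2 • d2) k = pu c t (be1 • d1 + be2 • d2) l := hkl
    obtain ⟨h3, -⟩ := hcp.coord h2
    have hst : StrictMono (sq c) := strictMono_nat_of_lt_succ fun n => by linarith only [(sq_incr hc n).2]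
    exact hst.injective h3
  refine (Set.infinite_range_of_injective hinj) (L.adm.neg.subset ?_)
  rintro _ ⟨k, rfl⟩
  have tp : t ∈ C01 t d1 d2 := ⟨1, 0, 0, by simp, Or.inr le_rfl, Or.inl rfl, Or.inl rfl⟩
  have hp : be1 • d1 + be2 • d2 ∈ C01 t d1 d2 := ⟨0, be1, be2, by simp, Or.inl rfl, rh.z1, rh.z2⟩
  refine ⟨hcp.mem _, ?_, ?_⟩
  · exact L.tri.pos_add (hcp.mem _) tp hp (r := sq c k) (s := sq c (k + 1)) (sq_incr hc _).1 (sq_incr hc _).1 rfl
  · have e3 : ρ (be1 • d1 + be2 • d2) = be1 * ρ d1 + be2 * ρ d2 := by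
      simp only [map_add, map_smul, smul_eq_mul]
    show ρ (pu c t (be1 • d1 + be2 • d2) k) ≤ 0
    rw [pu_val, L.rt, e3, ← h2]
    have h4 := w_sq (c := c) (w := e) (by linarith only [he]) k
    have h5 : 0 < e ^ (k + 1) := by positivity
    linarith only [h4, h5]

/-- one step in the pencil of `t` and `h` -/
private theorem step_real {S0 S1 S2 g η w r : ℝ} (hc : S1 ^ 2 - S0 * S2 = 1) (h1 : 1 ≤ S1) (h2 : 0 < S2)
    (hη : 0 < η) (hw : 0 ≤ w) (hD : 1 ≤ S1 * g - S0 * (η + w)) (hD' : S2 * g - S1 * (η + w) ≤ 0)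
    (hr : 1 < S2 * r + S1) : 1 < g + η * r := by
  have k1 : S2 * (S1 * g - S0 * (η + w)) - S1 * (S2 * g - S1 * (η + w)) = η + w := by
    linear_combination (η + w) * hc
  have k2 : S2 * 1 ≤ S2 * (S1 * g - S0 * (η + w)) := mul_le_mul_of_nonneg_left hD h2.le
  have k3 : 0 ≤ (S1 - 1) * -(S2 * g - S1 * (η + w)) := mul_nonneg (by linarith only [h1]) (by linarith only [hD'])
  have k4 : S2 ≤ (S2 * g - S1 * (η + w)) + (η + w) := by linarith only [k1, k2, k3]
  have k5 : η * 1 < η * (S2 * r + S1) := mul_lt_mul_of_pos_left hr hη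
  have k6 : 0 ≤ (S1 - 1) * w := mul_nonneg (by linarith only [h1]) hw
  have k7 : S2 * 1 < S2 * (g + η * r) := by linarith only [k4, k5, k6]
  exact lt_of_mul_lt_mul_left k7 h2.le

/-- **NG with `b2 = 0`**, the alternative `OFA` -/
theorem ngb0_ofa {al1 al2 be1 be2 : ℝ} (X : Xs Ψ B ρ φ t d1 d2 x x' g x1 x2 g' x1' x2')
    (O : OFA Ψ B φ d1 d2 al1 al2 be1 be2) (hbe : 1 ≤ be1) (hu : x1 * be2 ≤ x2 * be1) (hg' : 1 ≤ g')
    (hb2 : -B t d2 = 0) : False := by
  have rh := O.rh
  have fh := O.fh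
  have L := X.L
  have hT := L.tri
  have h := rt_of_tri hT
  have hal : be2 = al1 := by
    linear_combination (al1 + B d1 d2 * al2) * O.det + al2 * O.adj - be2 * O.ra.nrm
  have hbe2 : 1 ≤ be2 := by
    rcases rh.z2 with h1 | h1
    · exfalso
      rw [h1] at fh
      have := mul_nonneg (by linarith only [hbe] : 0 ≤ be1) X.h1
      linarith only [fh, this]
    · exact h1
  have hR : (0 : ℝ) • t + be1 • d1 + be2 • d2 ∈ Ψ := by
    have e : (0 : ℝ) • t + be1 • d1 + be2 • d2 = be1 • d1 + be2 • d2 := by module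
    rw [e]
    exact rh.mem
  have hRa : (0 : ℝ) • t + be2 • d1 + al2 • d2 ∈ Ψ := by
    have e : (0 : ℝ) • t + be2 • d1 + al2 • d2 = al1 • d1 + al2 • d2 := by
      rw [hal]
      module
    rw [e]
    exact O.ra.mem
  have hx : g • t + x1 • d1 + x2 • d2 ∈ Ψ := by
    rw [← X.e]
    exact L.xm
  have hSh := L.str_h rh
  have hρ2 : 0 ≤ ρ d2 := by
    have := L.str_2.foot
    linarith only [hb2, this]
  have hκ := X.h2
  have hfz := X.c.fz
  have ob := X.c.obt
  rw [hb2, zero_mul, add_zero] at ob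
  obtain ⟨η, hη⟩ : ∃ η, η = x1 / be1 := ⟨_, rfl⟩
  obtain ⟨ζ, hζd⟩ : ∃ ζ, ζ = x2 - be2 * η := ⟨_, rfl⟩
  have p1 := X.p1
  have hx1 : x1 = be1 * η := by
    rw [hη]
    field_simp
  have hx2 : x2 = ζ + be2 * η := by linarith only [hζd]
  have hη0 : 0 < η := by
    rw [hη]
    positivity
  have hgφ : g = η * -(be1 * φ d1 + be2 * φ d2) + -φ d2 * ζ := by
    rw [hfz, hx1, hx2]
    ring
  have hζ0 : 0 ≤ ζ := by
    have e1 : be1 * ζ = x2 * be1 - x1 * be2 := by
      rw [hζd]
      rw [hη]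
      field_simp
    have e2 : 0 ≤ be1 * ζ := by linarith only [hu, e1]
    by_contra hcon
    have := mul_neg_of_pos_of_neg (by linarith only [hbe] : 0 < be1) (not_le.1 hcon)
    linarith only [e2, this]
  have hηq := mul_pos hη0 (by linarith only [fh] : 0 < -(be1 * φ d1 + be2 * φ d2))
  have hκζ := mul_nonneg (by linarith only [hκ] : 0 ≤ -φ d2) hζ0
  have hg0 : 0 < g := by linarith only [hgφ, hηq, hκζ]
  have hg1 := (h.z0 hx hg0).1
  have hζ : 0 < ζ := by
    rcases hζ0.lt_or_eq with h1 | h1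
    · exact h1
    · exfalso
      have e1 : be1 • d1 + be2 • d2 = (1 / η) • x + (-(g / η)) • t := by
        rw [X.e, hx1, hx2, ← h1]
        match_scalars <;> field_simp <;> ring
      exact canon_neg L.cxt rh.mem e1 (by positivity) (by
        have : 0 < g / η := by positivity
        linarith only [this])
  -- `p ≥ 1`
  have hp : 1 ≤ 2 * -B d1 d2 * x1 - x2 := by
    have r2 := h.r2 _ _ _ hx
    have z2 := (h.z0 r2 hg0).2.2
    have i2 : 2 * -B t d2 * g + 2 * -B d1 d2 * x1 - x2 = 2 * -B d1 d2 * x1 - x2 := by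
      rw [hb2]
      ring
    rw [i2] at z2
    rcases z2 with h1 | h1
    · exfalso
      have r3 := h.r2 _ _ _ h.e1
      have e0 : (0 : ℝ) • t + (1 : ℝ) • d1 + (2 * -B t d2 * 0 + 2 * -B d1 d2 * 1 - 0) • d2 =
          (1 / x1) • x + (-(g / x1)) • t := by
        have e3 : x2 = 2 * -B d1 d2 * x1 := by linarith only [h1]
        have hx10 : 0 < x1 := by linarith only [p1]
        rw [X.e, e3]
        match_scalars <;> field_simp <;> ring
      exact canon_neg L.cxt r3 e0 (by positivity) (by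
        have : 0 < g / x1 := by positivity
        linarith only [this])
    · exact h1
  -- `φ a > 0`
  have fa : 0 < al1 * φ d1 + al2 * φ d2 := by
    rcases O.fa.lt_or_eq with h1 | h1
    · exact h1
    exfalso
    obtain ⟨α, β, e0⟩ := L.sp _ O.ra.mem
    have e1 : φ (al1 • d1 + al2 • d2) = 0 := by
      simp only [map_add, map_smul, smul_eq_mul]
      linarith only [h1]
    rw [e1, zero_smul, add_zero] at e0
    have e2 : (0 : ℝ) • t + al1 • d1 + al2 • d2 =
        (α * g + β * g') • t + (α * x1 + β * x1') • d1 + (α * x2 + β * x2') • d2 := by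
      have : (0 : ℝ) • t + al1 • d1 + al2 • d2 = al1 • d1 + al2 • d2 := by module
      rw [this, e0, X.e, X.e']
      module
    obtain ⟨e3, -, -⟩ := hT.coordW e2
    have hcx := L.cxx _ O.ra.mem α β e0
    rcases hcx with (⟨h6, h7⟩ | ⟨h6, h7⟩ | ⟨h6, h7⟩) | (⟨h6, h7⟩ | ⟨h6, h7⟩ | ⟨h6, h7⟩)
    · rw [h6, h7] at e3
      linarith only [hg', e3]
    · rw [h6, h7] at e3
      linarith only [hg1, e3]
    · have := mul_pos (by linarith only [h6] : 0 < α) hg0
      have := mul_pos (by linarith only [h7] : 0 < β) (by linarith only [hg'] : 0 < g')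
      linarith
    · rw [show α = 0 by linarith only [h6], show β = -1 by linarith only [h7]] at e3
      linarith only [hg', e3]
    · rw [show α = -1 by linarith only [h6], show β = 0 by linarith only [h7]] at e3
      linarith only [hg1, e3]
    · have := mul_pos (by linarith only [h6] : 0 < -α) hg0
      have := mul_pos (by linarith only [h7] : 0 < -β) (by linarith only [hg'] : 0 < g')
      linarith
  -- the label of `t` and `h`
  obtain ⟨c, hcd⟩ : ∃ c, c = be1 * -B t d1 + be2 * -B t d2 := ⟨_, rfl⟩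
  have hc1 : c = be1 * -B t d1 := by
    rw [hcd, hb2]
    ring
  obtain ⟨f, hf⟩ : ∃ f, f = be1 * φ d1 + be2 * φ d2 := ⟨_, rfl⟩
  obtain ⟨r, hr⟩ : ∃ r, r = be1 * ρ d1 + be2 * ρ d2 := ⟨_, rfl⟩
  have hcp := L.cpt64 rh
  have ecp : -B t d1 * be1 + -B t d2 * be2 = c := by
    rw [hcd]
    ring
  rw [ecp] at hcp
  have ob' : g ≤ c * η := by
    rw [hx1] at ob
    rw [hc1]
    linarith only [ob]
  have hc0 : 0 < c := by
    by_contra hcon
    have := mul_nonpos_of_nonpos_of_nonneg (not_lt.1 hcon) hη0.le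
    linarith only [hg1, ob', this]
  rw [← hf] at fh hgφ hηq
  rw [← hcd, ← hf, ← hr] at hSh
  have hρ := X.le_one.1
  have hρx : g + x1 * ρ d1 + x2 * ρ d2 = (g + η * r) + ζ * ρ d2 := by
    rw [hx1, hx2, hr]
    ring
  rw [hρx] at hρ
  have hζρ := mul_nonneg hζ.le hρ2
  obtain ⟨w, hw⟩ : ∃ w, w = be2 * ζ := ⟨_, rfl⟩
  have hw0 : 0 < w := by
    rw [hw]
    positivity
  -- the final step
  have fin : 1 ≤ c → ∀ e : ℝ, 0 < e → e ≤ 1 → e ^ 2 - 2 * c * e + 1 = 0 → e * (η + w) ≤ g → False := by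
    intro hc e he0 he1 hee hH
    have k1 := lemG h hb2 hR hbe hbe2 he0 (by rw [hc1] at hee; linarith only [hee]) hx hg1 hx1 hx2 hη0 hζ ob hp
      (by rw [← hw]; exact hH)
    have k2 := rho_gt L rh (by rw [← hcd]; exact hc) (by rw [← hcd]; exact hee) he0 he1
    rw [← hr] at k2
    have k3 := mul_lt_mul_of_pos_left k2 hη0
    linarith
  -- `-φ d2 = be2 (-φ h) + be1 φ a`
  have hκ2 : -φ d2 = be2 * -f + be1 * (al1 * φ d1 + al2 * φ d2) := by
    have h1 := O.det
    rw [hf]
    rw [← hal] at h1 ⊢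
    linear_combination (φ d2) * h1
  have hgf : g = -f * (η + w) + be1 * (al1 * φ d1 + al2 * φ d2) * ζ := by
    rw [hκ2] at hgφ
    rw [hw]
    linarith only [hgφ]
  have hpa : 0 < be1 * (al1 * φ d1 + al2 * φ d2) * ζ := mul_pos (mul_pos (by linarith only [hbe]) fa) hζ
  rcases _root_.DY.good_or_beyond c f with ⟨k, hk⟩ | hB
  · -- `F` good at `h`
    have hk1 := hk.pos fh
    rcases hk1.eq_or_lt with h3 | h3
    · subst h3
      have h4 := hk.nk_one hSh fh
      have h5 := mul_pos hη0 h4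
      linarith only [hg1, hρ, hζρ, h5]
    · obtain ⟨m, rfl⟩ : ∃ m, k = m + 1 := ⟨k - 1, by omega⟩
      have hnk := hk.nk hSh fh
      -- `D m > 0`
      have hm := hk.hm m (by omega)
      have s1 := hk.hs m (by omega)
      have D0 : 0 < sq c (m + 1) * g - sq c m * (η + w) := by
        have k1 : sq c m * (η + w) ≤ sq c (m + 1) * -f * (η + w) :=
          mul_le_mul_of_nonneg_right (by linarith only [hm]) (by linarith only [hη0, hw0])
        have k2 := mul_pos s1 hpa
        have k3 : sq c (m + 1) * g = sq c (m + 1) * -f * (η + w) +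
            sq c (m + 1) * (be1 * (al1 * φ d1 + al2 * φ d2) * ζ) := by
          rw [hgf]
          ring
        rw [k3]
        linarith
      -- `D n > 0` gives `D n ≥ 1`
      have D1 : ∀ n, 0 < sq c (n + 1) * g - sq c n * (η + w) → 1 ≤ sq c (n + 1) * g - sq c n * (η + w) := by
        intro n hn
        have hmem : (sq c n) • t + (sq c (n + 1) * be1) • d1 + (sq c (n + 1) * be2) • d2 ∈ Ψ := by
          have h1 := hcp.mem n
          have e0 : pu c t (be1 • d1 + be2 • d2) n =
              (sq c n) • t + (sq c (n + 1) * be1) • d1 + (sq c (n + 1) * be2) • d2 := by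
            unfold pu
            module
          rw [e0] at h1
          exact h1
        have h1 := det_crd hT hx hmem hRa
        have hd : be2 * be2 - be1 * al2 = 1 := by
          have h1 := O.det
          rw [← hal] at h1
          linarith only [h1]
        have e0 : g * (sq c (n + 1) * be1 * al2 - sq c (n + 1) * be2 * be2) -
            x1 * (sq c n * al2 - sq c (n + 1) * be2 * 0) + x2 * (sq c n * be2 - sq c (n + 1) * be1 * 0) =
            -(sq c (n + 1) * g - sq c n * (η + w)) := by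
          rw [hx1, hx2, hw]
          linear_combination (-(g * sq c (n + 1)) + η * sq c n) * hd
        rw [e0, abs_neg, abs_of_pos hn] at h1
        rcases h1 with h1 | h1
        · linarith only [hn, h1]
        · exact h1
      have cas := sq_cassini c
      -- the values of `ρ`
      have R1 : ∀ j, (∀ i ≤ m + 1 + j, 0 < sq c (i + 1)) → 1 < sq c (m + 1 + j + 1) * r + sq c (m + 1 + j) := by
        intro j
        induction j with
        | zero =>
          intro _
          exact hnk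
        | succ j ih =>
          intro hs
          have h4 := ih (fun i hi => hs i (by omega))
          have h5 := hs (m + 1 + j) (by omega)
          have h6 := hs (m + 1 + (j + 1)) le_rfl
          have i1 : m + 1 + (j + 1) + 1 = m + 1 + j + 2 := by omega
          have i2 : m + 1 + (j + 1) = m + 1 + j + 1 := by omega
          rw [i1] at h6 ⊢
          rw [i2]
          have h7 := sq_le_succ (b := c) (n := m + 1 + j + 1) h5.le (by
            have : m + 1 + j + 1 + 1 = m + 1 + j + 2 := rfl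
            rw [this]
            exact h6.le)
          have i3 : m + 1 + j + 1 + 1 = m + 1 + j + 2 := rfl
          rw [i3] at h7
          have h8 := cas (m + 1 + j)
          have h9 : sq c (m + 1 + j + 1) * (sq c (m + 1 + j + 2) * r + sq c (m + 1 + j + 1)) =
              sq c (m + 1 + j + 2) * (sq c (m + 1 + j + 1) * r + sq c (m + 1 + j)) + 1 := by
            linear_combination h8
          have h10 := mul_lt_mul_of_pos_left h4 h6
          have h11 : sq c (m + 1 + j + 1) * 1 <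
              sq c (m + 1 + j + 1) * (sq c (m + 1 + j + 2) * r + sq c (m + 1 + j + 1)) := by
            rw [h9]
            linarith only [h7, h10]
          exact lt_of_mul_lt_mul_left h11 h5.le
      have DD : ∀ j, (∀ i ≤ m + j, 0 < sq c (i + 1)) → 0 < sq c (m + j + 1) * g - sq c (m + j) * (η + w) := by
        intro j
        induction j with
        | zero =>
          intro _
          exact D0
        | succ j ih =>
          intro hs
          have h4 := ih (fun i hi => hs i (by omega))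
          by_contra hcon
          rw [not_lt] at hcon
          have h5 := D1 _ h4
          have h6 := R1 j (fun i hi => hs i (by omega))
          have h7 := hs (m + j) (by omega)
          have h8 := hs (m + (j + 1)) le_rfl
          have i1 : m + (j + 1) + 1 = m + j + 2 := by omega
          have i2 : m + (j + 1) = m + j + 1 := by omega
          have i3 : m + 1 + j + 1 = m + j + 2 := by omega
          have i4 : m + 1 + j = m + j + 1 := by omega
          rw [i1] at h8
          rw [i1, i2] at hcon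
          rw [i3, i4] at h6
          have h9 := step_real (cas (m + j)) (hcp.sq_one_le h7) h8 hη0 hw0.le h5 hcon h6
          linarith only [hρ, hζρ, h9]
      rcases hcp.sq_dich with ⟨hc, hs⟩ | ⟨m0, m1, m2, m3, m4⟩
      · -- infinite order
        obtain ⟨e, he0, he1, hee⟩ := exists_e hc
        refine fin hc e he0 he1 hee ?_
        have hall : ∀ n, 0 < sq c (n + 1) * g - sq c n * (η + w) := by
          intro n
          by_contra hcon
          rw [not_lt] at hcon
          have hdown : ∀ j, sq c (n + j + 1) * g - sq c (n + j) * (η + w) ≤ 0 := by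
            intro j
            induction j with
            | zero => exact hcon
            | succ j ih =>
              have i1 : n + (j + 1) + 1 = n + j + 2 := by omega
              have i2 : n + (j + 1) = n + j + 1 := by omega
              rw [i1, i2]
              have h4 := hs (n + j)
              have h5 := hs (n + j + 1)
              have i3 : n + j + 1 + 1 = n + j + 2 := rfl
              rw [i3] at h5
              have h6 := cas (n + j)
              have h7 : sq c (n + j + 1) * (sq c (n + j + 2) * g - sq c (n + j + 1) * (η + w)) =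
                  sq c (n + j + 2) * (sq c (n + j + 1) * g - sq c (n + j) * (η + w)) - (η + w) := by
                linear_combination (-(η + w)) * h6
              have h8 := mul_nonpos_of_nonneg_of_nonpos (by linarith only [h5] : 0 ≤ sq c (n + j + 2)) ih
              by_contra h9
              rw [not_le] at h9
              have := mul_pos (by linarith only [h4] : 0 < sq c (n + j + 1)) h9
              linarith only [hη0, hw0, h7, h8, this]
          have h4 := hdown m
          have h5 := DD n (fun i _ => by linarith only [hs i])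
          have i1 : n + m = m + n := by omega
          rw [i1] at h4
          linarith only [h4, h5]
        have hηw : 0 < η + w := by linarith only [hη0, hw0]
        have h4 := om_lim (κ := g / (η + w)) hc hee he0 he1 (fun n => by
          have := hall n
          rw [div_mul_eq_mul_div, le_div_iff₀ hηw]
          linarith only [this])
        rw [le_div_iff₀ hηw] at h4
        exact h4
      · -- finite order
        have hle : m + 1 ≤ m0 := by
          by_contra hcon
          have h4 := hk.hs (m0 + 1) (by omega)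
          have i1 : m0 + 1 + 1 = m0 + 2 := rfl
          rw [i1, m1] at h4
          linarith only [h4]
        obtain ⟨j, rfl⟩ : ∃ j, m0 = m + j := ⟨m0 - m, by omega⟩
        have h4 := DD j (fun i hi => by linarith only [m4 i hi])
        have h5 := sq_succ c (m + j)
        rw [m1, m2] at h5
        rw [m2] at h4
        have h6 : sq c (m + j) = 2 * c := by linarith only [h5]
        rw [h6] at h4
        have h7 := mul_pos hc0 hη0
        have h8 := mul_pos hc0 hw0
        linarith only [ob', h4, h7, h8]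
  · -- beyond
    rcases hcp.sq_dich with ⟨hc, hs⟩ | ⟨m0, m1, m2, m3, m4⟩
    · obtain ⟨e, he0, he1, hee⟩ := exists_e hc
      refine fin hc e he0 he1 hee ?_
      have hqe : e ≤ -f := by
        refine om_lim hc hee he0 he1 ?_
        intro n
        have h3 := hB n (fun i _ => by linarith only [hs i])
        linarith only [h3]
      have h4 := mul_le_mul_of_nonneg_right hqe (by linarith only [hη0, hw0] : 0 ≤ η + w)
      linarith only [hgf, hpa, h4]
    · have h3 := beyond_fin hB m1 m2 m4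
      have h4 := mul_le_mul_of_nonneg_left h3 hη0.le
      have h5 := mul_pos hc0 hη0
      linarith only [hκζ, hηq, hgφ, ob', h4]

/-- **NG with `b2 = 0`**, the limit gap -/
theorem ngb0_im (X : Xs Ψ B ρ φ t d1 d2 x x' g x1 x2 g' x1' x2')
    (hno : ¬ ∃ al1 al2 be1 be2 : ℝ, OFA Ψ B φ d1 d2 al1 al2 be1 be2) (hg' : 1 ≤ g')
    (hb2 : -B t d2 = 0) : False := by
  have L := X.L
  have hT := L.tri
  have h := rt_of_tri hT
  obtain ⟨hb, w, hw0, hw1, hw, f1, f2, r1⟩ := gap_data L X.h1 X.h2 hno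
  have hx : g • t + x1 • d1 + x2 • d2 ∈ Ψ := by
    rw [← X.e]
    exact L.xm
  have hρ2 : 0 ≤ ρ d2 := by
    have := L.str_2.foot
    linarith only [hb2, this]
  have hκ := X.h2
  have hfz := X.c.fz
  obtain ⟨z0, z1, z2, z3⟩ := X.c.zbar64
  have p1 := X.p1
  have hst := steep_of_gap hw0 hw f2 hκ z0 z1 (by
    have : x1 ^ 2 + x2 ^ 2 - 2 * -B d1 d2 * x1 * x2 = x1 ^ 2 + x2 ^ 2 - 2 * (-B d1 d2) * x1 * x2 := rfl
    exact z3) (by linarith only [hfz] : g + x1 * φ d1 + x2 * φ d2 = 0)
  obtain ⟨η, hη⟩ : ∃ η, η = x1 / w := ⟨_, rfl⟩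
  obtain ⟨ζ, hζd⟩ : ∃ ζ, ζ = x2 - η := ⟨_, rfl⟩
  have hx1 : x1 = w * η := by
    rw [hη]
    field_simp
  have hx2 : x2 = ζ + η := by linarith only [hζd]
  have hη0 : 0 < η := by
    rw [hη]
    positivity
  have hζ : 0 < ζ := by
    have e1 : 0 < w * ζ := by
      have : w * ζ = w * x2 - x1 := by
        rw [hζd, hx1]
        ring
      rw [this]
      linarith only [hst]
    exact (mul_pos_iff_of_pos_left hw0).1 e1
  have hgφ : g = η * -(w * φ d1 + φ d2) + -φ d2 * ζ := by
    rw [hfz, hx1, hx2]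
    ring
  have hηq := mul_nonneg hη0.le (by linarith only [f1] : 0 ≤ -(w * φ d1 + φ d2))
  have hκζ := mul_pos (by linarith only [hκ] : 0 < -φ d2) hζ
  have hg0 : 0 < g := by linarith only [hgφ, hηq, hκζ]
  have hg1 := (h.z0 hx hg0).1
  obtain ⟨k1, k2, k3, k4⟩ := X.le_one
  have hρx : g + x1 * ρ d1 + x2 * ρ d2 = g + η * (w * ρ d1 + ρ d2) + ζ * ρ d2 := by
    rw [hx1, hx2]
    ring
  have h5 := mul_nonneg hη0.le r1
  have h6 := mul_nonneg hζ.le hρ2
  rw [hρx] at k1 k4
  -- equality
  have h7 : ζ * ρ d2 = 0 := by linarith only [hg1, k3, k4, h5, h6]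
  have h8 : η * (w * ρ d1 + ρ d2) = 0 := by linarith only [hg1, k3, k4, h5, h7]
  have h9 : ρ d2 = 0 := by
    rcases mul_eq_zero.1 h7 with h10 | h10
    · linarith only [hζ, h10]
    · exact h10
  have h10 : ρ d1 = 0 := by
    rcases mul_eq_zero.1 h8 with h11 | h11
    · linarith only [hη0, h11]
    · rw [h9, add_zero] at h11
      rcases mul_eq_zero.1 h11 with h12 | h12
      · linarith only [hw0, h12]
      · exact h12
  rw [h9, h10] at k4
  linarith only [hg', hg1, k4]

end Pool.Agent.Helper54.DY
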