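import Pool.Agent.Helper54.DY.Det1

/-!
# Determinants of three roots, part 2 (MP_d13a5e_al)

`Tri.far`: for positive roots `x, y` with `B x y ≤ -1`, either `x, y` lie in a conjugate of a standard parabolic, or
`-B x y` is at least every label.  `Tri.niel`: two positive roots with `B x y > 0` can be replaced by a lower pair
(Nielsen move), without changing the determinant with a third root.
-/

set_option autoImplicit false

namespace DY

open Set

variable {E : Type*} [AddCommGroup E] [Module ℝ E]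
variable {Ψ : Set E} {B : E →ₗ[ℝ] E →ₗ[ℝ] ℝ} {a b c x y z : E} {f g h l : E →ₗ[ℝ] ℝ}

/-- every label is a lower bound -/
theorem lab_le {p q r v0 v1 v2 : ℝ} (hp : 0 ≤ p) (hq : 0 ≤ q) (hr : 1 ≤ r) (h0 : 1 ≤ v0) (h1 : 1 ≤ v1)
    (h2 : 1 ≤ v2) (k0 : 0 ≤ p * v1 + q * v2 - v0) (k1 : 0 ≤ p * v0 + r * v2 - v1)
    (k2 : 0 ≤ q * v0 + r * v1 - v2) :
    2 * r - 2 ≤ v0 * (p * v1 + q * v2 - v0) + v1 * (p * v0 + r * v2 - v1) + v2 * (q * v0 + r * v1 - v2) := by
  have e0 : 0 ≤ v0 * (p * v1 + q * v2 - v0) := mul_nonneg (by linarith only [h0]) k0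
  have e1 : 0 ≤ (p + q) * v0 := mul_nonneg (by linarith only [hp, hq]) (by linarith only [h0])
  have e2 : 0 ≤ r - 1 := by linarith only [hr]
  rcases le_total v2 v1 with h | h
  · have e3 : 0 ≤ (v1 - v2) * (p * v0 + r * v2 - v1) := mul_nonneg (by linarith only [h]) k1
    have e4 : 0 ≤ v2 * ((p + q) * v0) := mul_nonneg (by linarith only [h2]) e1
    have e5 : 0 ≤ v2 * ((r - 1) * (v1 - v2)) := mul_nonneg (by linarith only [h2]) (mul_nonneg e2 (by linarith only [h]))
    have e6 : 0 ≤ (r - 1) * (v2 ^ 2 - 1) := mul_nonneg e2 (by nlinarith only [h2])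
    nlinarith only [e0, e3, e4, e5, e6]
  · have e3 : 0 ≤ (v2 - v1) * (q * v0 + r * v1 - v2) := mul_nonneg (by linarith only [h]) k2
    have e4 : 0 ≤ v1 * ((p + q) * v0) := mul_nonneg (by linarith only [h1]) e1
    have e5 : 0 ≤ v1 * ((r - 1) * (v2 - v1)) := mul_nonneg (by linarith only [h1]) (mul_nonneg e2 (by linarith only [h]))
    have e6 : 0 ≤ (r - 1) * (v1 ^ 2 - 1) := mul_nonneg e2 (by nlinarith only [h1])
    nlinarith only [e0, e3, e4, e5, e6]

/-- the goal: determinants with `x` and `y` are zero or at least `V` in absolute value, or `M ≤ -B x y` -/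
def FarG (Ψ : Set E) (B : E →ₗ[ℝ] E →ₗ[ℝ] ℝ) (f g h : E →ₗ[ℝ] ℝ) (V M : ℝ) (x y : E) : Prop :=
  (∀ z ∈ Ψ, vol f g h x y z = 0 ∨ V ≤ |vol f g h x y z|) ∨ M ≤ -B x y

private theorem far_step {V M : ℝ} (ht : Tri Ψ B a b c) (hl : Ht a b c l) (hx : x ∈ Ψ) (hxp : x ∈ C01 a b c)
    (hy : y ∈ Ψ) (hyp : y ∈ C01 a b c) (hxa : x ≠ a) (hya : y ≠ a) (h0 : 0 < B a x + B a y)
    (ih : ∀ x' y' : E, x' ∈ Ψ → x' ∈ C01 a b c → y' ∈ Ψ → y' ∈ C01 a b c → B x' y' = B x y →
      l x' + l y' < l x + l y → FarG Ψ B f g h V M x' y') : FarG Ψ B f g h V M x y := by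
  have h1 : B a a = 1 := ht.one a ht.ha
  have hB := B_rfW ht.symm h1 x y
  have h2 := ih _ _ (ht.refl a ht.ha x hx) (ht.rf_posW hx hxp hxa) (ht.refl a ht.ha y hy)
    (ht.rf_posW hy hyp hya) hB (by rw [hl.rf, hl.rf]; linarith only [h0])
  rcases h2 with h2 | h2
  · left
    intro z hz
    have h3 := h2 _ (ht.refl a ht.ha z hz)
    have h4 : vol f g h (rf B a x) (rf B a y) (rf B a z) = -vol f g h x y z := by
      apply vol_rf (b := b) (c := c) h1
      intro u hu
      simp only [mem_insert_iff, mem_singleton_iff] at hu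
      rcases hu with rfl | rfl | rfl
      · obtain ⟨α, β, γ, e, -⟩ := ht.coords hx
        exact ⟨α, β, γ, e⟩
      · obtain ⟨α, β, γ, e, -⟩ := ht.coords hy
        exact ⟨α, β, γ, e⟩
      · obtain ⟨α, β, γ, e, -⟩ := ht.coords hz
        exact ⟨α, β, γ, e⟩
    rw [h4, neg_eq_zero, abs_neg] at h3
    exact h3
  · right
    rw [hB] at h2
    exact h2

theorem Tri.far {M : ℝ} (ht : Tri Ψ B a b c) (hM : M = -B a b ∨ M = -B a c ∨ M = -B b c)
    (hx : x ∈ Ψ) (hxp : x ∈ C01 a b c) (hy : y ∈ Ψ) (hyp : y ∈ C01 a b c) (hB : B x y ≤ -1) :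
    FarG Ψ B f g h |vol f g h a b c| M x y := by
  obtain ⟨l, hl⟩ := ht.exists_ht
  have hfin : ∀ r : ℝ, {p : E × E | (p.1 ∈ Ψ ∧ p.1 ∈ C01 a b c ∧ p.2 ∈ Ψ ∧ p.2 ∈ C01 a b c ∧
      B p.1 p.2 ≤ -1) ∧ l p.1 + l p.2 ≤ r}.Finite := by
    intro r
    refine ((hl.fin ht r).prod (hl.fin ht r)).subset ?_
    rintro p ⟨⟨h1, h2, h3, h4, -⟩, h5⟩
    have e1 := hl.one_le ht h1 h2
    have e2 := hl.one_le ht h3 h4
    exact ⟨⟨h1, h2, by linarith only [h5, e2]⟩, ⟨h3, h4, by linarith only [h5, e1]⟩⟩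
  refine ht_ind {p : E × E | p.1 ∈ Ψ ∧ p.1 ∈ C01 a b c ∧ p.2 ∈ Ψ ∧ p.2 ∈ C01 a b c ∧ B p.1 p.2 ≤ -1}
    (fun p => l p.1 + l p.2) hfin (fun p => FarG Ψ B f g h |vol f g h a b c| M p.1 p.2) ?_ (x, y)
    ⟨hx, hxp, hy, hyp, hB⟩
  rintro ⟨x, y⟩ ⟨hx, hxp, hy, hyp, hB⟩ ih
  simp only at hx hxp hy hyp hB ih ⊢
  have haa : B a a = 1 := ht.one a ht.ha
  have hbb : B b b = 1 := ht.one b ht.hb
  have hcc : B c c = 1 := ht.one c ht.hc
  have hxx : B x x = 1 := ht.one x hx
  have hyy : B y y = 1 := ht.one y hy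
  have ih' : ∀ x' y' : E, x' ∈ Ψ → x' ∈ C01 a b c → y' ∈ Ψ → y' ∈ C01 a b c → B x' y' = B x y →
      l x' + l y' < l x + l y → FarG Ψ B f g h |vol f g h a b c| M x' y' :=
    fun x' y' g1 g2 g3 g4 g5 g6 => ih (x', y') ⟨g1, g2, g3, g4, by rw [g5]; exact hB⟩ g6
  have hneed : ∀ e : E, (x ≠ e ∧ y ≠ e) ∨ B e x + B e y ≤ 0 := by
    intro e
    by_cases hxe : x = e
    · right
      rw [← hxe, hxx]
      linarith only [hB]
    by_cases hye : y = e
    · right
      rw [← hye, hyy, ht.symm y x]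
      linarith only [hB]
    exact Or.inl ⟨hxe, hye⟩
  by_cases ka : B a x + B a y ≤ 0
  swap
  · rcases hneed a with h1 | h1
    · exact far_step ht hl hx hxp hy hyp h1.1 h1.2 (not_le.1 ka) ih'
    · exact absurd h1 ka
  by_cases kb : B b x + B b y ≤ 0
  swap
  · rcases hneed b with h1 | h1
    · have hlb : Ht b a c l := ⟨hl.lb, hl.la, hl.lc⟩
      have hC : C01 b a c = C01 a b c := C01_swapW a b c
      refine far_step ht.swapW hlb hx (by rw [hC]; exact hxp) hy (by rw [hC]; exact hyp) h1.1 h1.2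
        (not_le.1 kb) ?_
      rw [hC]
      exact ih'
    · exact absurd h1 kb
  by_cases kc : B c x + B c y ≤ 0
  swap
  · rcases hneed c with h1 | h1
    · have hlc : Ht c b a l := ⟨hl.lc, hl.lb, hl.la⟩
      have hC : C01 c b a = C01 a b c := C01_swapW' a b c
      refine far_step ht.swapW' hlc hx (by rw [hC]; exact hxp) hy (by rw [hC]; exact hyp) h1.1 h1.2
        (not_le.1 kc) ?_
      rw [hC]
      exact ih'
    · exact absurd h1 kc
  -- the minimal configuration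
  obtain ⟨x0, x1, x2, ex, zx0, zx1, zx2⟩ := hxp
  obtain ⟨y0, y1, y2, ey, zy0, zy1, zy2⟩ := hyp
  have hz : ∀ {p q : ℝ}, Z1 p → Z1 q → (p = 0 ∧ q = 0) ∨ 1 ≤ p + q := by
    intro p q h1 h2
    rcases h1 with h1 | h1
    · rcases h2 with h2 | h2
      · exact Or.inl ⟨h1, h2⟩
      · right
        linarith only [h1, h2]
    · right
      linarith only [h1, h2.nonneg]
  rcases hz zx2 zy2 with ⟨e1, e2⟩ | hv2
  · left
    intro z hzΨ
    exact ht.dg_std hx hy (by rw [ex, e1]; module) (by rw [ey, e2]; module) hzΨ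
  rcases hz zx1 zy1 with ⟨e1, e2⟩ | hv1
  · left
    intro z hzΨ
    have ht' : Tri Ψ B a c b := ht.swapW.swapW'.swapW
    have h1 := ht'.dg_std (f := f) (g := g) (h := h) hx hy (x0 := x0) (x1 := x2) (y0 := y0) (y1 := y2)
      (by rw [ex, e1]; module) (by rw [ey, e2]; module) hzΨ
    rw [vol_swap'' a b c, abs_neg] at h1
    exact h1
  rcases hz zx0 zy0 with ⟨e1, e2⟩ | hv0
  · left
    intro z hzΨ
    have h1 := ht.swapW'.dg_std (f := f) (g := g) (h := h) hx hy (x0 := x2) (x1 := x1) (y0 := y2) (y1 := y1)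
      (by rw [ex, e1]; module) (by rw [ey, e2]; module) hzΨ
    rw [vol_swap' a b c, abs_neg] at h1
    exact h1
  right
  have hsab := ht.symm b a
  have hsac := ht.symm c a
  have hsbc := ht.symm c b
  have va : B a x + B a y = (x0 + y0) + (x1 + y1) * B a b + (x2 + y2) * B a c := by
    rw [ex, ey]
    simp only [map_add, map_smul, smul_eq_mul, haa]
    ring
  have vb : B b x + B b y = (x0 + y0) * B a b + (x1 + y1) + (x2 + y2) * B b c := by
    rw [ex, ey]
    simp only [map_add, map_smul, smul_eq_mul, hbb, hsab]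
    ring
  have vc : B c x + B c y = (x0 + y0) * B a c + (x1 + y1) * B b c + (x2 + y2) := by
    rw [ex, ey]
    simp only [map_add, map_smul, smul_eq_mul, hcc, hsac, hsbc]
    ring
  have hsum : 2 + 2 * B x y = (x0 + y0) * (B a x + B a y) + (x1 + y1) * (B b x + B b y) +
      (x2 + y2) * (B c x + B c y) := by
    have h1 : B (x + y) (x + y) = 2 + 2 * B x y := by
      simp only [map_add, LinearMap.add_apply, hxx, hyy, ht.symm y x]
      ring
    have h2 : x + y = (x0 + y0) • a + (x1 + y1) • b + (x2 + y2) • c := by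
      rw [ex, ey]
      module
    rw [← h1]
    nth_rewrite 1 [h2]
    simp only [map_add, map_smul, LinearMap.add_apply, LinearMap.smul_apply, smul_eq_mul]
    ring
  rw [va] at ka
  rw [vb] at kb
  rw [vc] at kc
  rw [va, vb, vc] at hsum
  have n1 := ht.B_nonpos
  have n2 := ht.B_nonpos'
  have n3 := ht.B_nonpos''
  obtain ⟨v0, hv0e⟩ : ∃ v, v = x0 + y0 := ⟨_, rfl⟩
  obtain ⟨v1, hv1e⟩ : ∃ v, v = x1 + y1 := ⟨_, rfl⟩
  obtain ⟨v2, hv2e⟩ : ∃ v, v = x2 + y2 := ⟨_, rfl⟩
  rw [← hv0e] at hv0 ka kb kc hsum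
  rw [← hv1e] at hv1 ka kb kc hsum
  rw [← hv2e] at hv2 ka kb kc hsum
  obtain ⟨p, hp⟩ : ∃ p, p = -B a b := ⟨_, rfl⟩
  obtain ⟨q, hq⟩ : ∃ q, q = -B a c := ⟨_, rfl⟩
  obtain ⟨r, hr⟩ : ∃ r, r = -B b c := ⟨_, rfl⟩
  have ep : B a b = -p := by rw [hp, neg_neg]
  have eq : B a c = -q := by rw [hq, neg_neg]
  have er : B b c = -r := by rw [hr, neg_neg]
  rw [ep] at ka kb hsum n1
  rw [eq] at ka kc hsum n2
  rw [er] at kb kc hsum n3
  rw [ep, eq, er, neg_neg, neg_neg, neg_neg] at hM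
  rcases hM with hM | hM | hM
  · by_cases h1 : 1 ≤ p
    · have h2 := lab_le (p := q) (q := r) (r := p) (v0 := v2) (v1 := v0) (v2 := v1) (by linarith only [n2]) (by linarith only [n3])
        h1 hv2 hv0 hv1 (by linarith only [kc]) (by linarith only [ka]) (by linarith only [kb])
      nlinarith only [hsum, hM, h2]
    · linarith only [hB, hM, h1]
  · by_cases h1 : 1 ≤ q
    · have h2 := lab_le (p := p) (q := r) (r := q) (v0 := v1) (v1 := v0) (v2 := v2) (by linarith only [n1]) (by linarith only [n3])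
        h1 hv1 hv0 hv2 (by linarith only [kb]) (by linarith only [ka]) (by linarith only [kc])
      nlinarith only [hsum, hM, h2]
    · linarith only [hB, hM, h1]
  · by_cases h1 : 1 ≤ r
    · have h2 := lab_le (p := p) (q := q) (r := r) (v0 := v0) (v1 := v1) (v2 := v2) (by linarith only [n1]) (by linarith only [n2])
        h1 hv0 hv1 hv2 (by linarith only [ka]) (by linarith only [kb]) (by linarith only [kc])
      nlinarith only [hsum, hM, h2]
    · linarith only [hB, hM, h1]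

/-! ### Nielsen moves -/

/-- `u, v, 2 b v - u, ...` -/
def sqE (b : ℝ) (u v : E) : ℕ → E
  | 0 => u
  | 1 => v
  | (n + 2) => (2 * b) • sqE b u v (n + 1) - sqE b u v n

private theorem sqE_pos {r : ℝ} (ht : Tri Ψ B a b c) (hl : Ht a b c l) (hr : 1 ≤ r) {u v : E} (hu : u ∈ Ψ)
    (hup : u ∈ C01 a b c) (hv : v ∈ Ψ) (hvp : v ∈ C01 a b c) (hB : B u v = r) (h0 : l u ≤ r * l v) (n : ℕ) :
    sqE r u v n ∈ Ψ ∧ sqE r u v n ∈ C01 a b c ∧ sqE r u v (n + 1) ∈ Ψ ∧ sqE r u v (n + 1) ∈ C01 a b c ∧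
      B (sqE r u v n) (sqE r u v (n + 1)) = r ∧ l (sqE r u v n) ≤ r * l (sqE r u v (n + 1)) := by
  induction n with
  | zero => exact ⟨hu, hup, hv, hvp, hB, h0⟩
  | succ n ih =>
    obtain ⟨h1, h2, h3, h4, h5, h6⟩ := ih
    have e : sqE r u v (n + 1 + 1) = (2 * r) • sqE r u v (n + 1) - sqE r u v n := rfl
    have e2 : sqE r u v (n + 1 + 1) = -rf B (sqE r u v (n + 1)) (sqE r u v n) := by
      rw [e]
      unfold DY.rf
      rw [ht.symm, h5]
      module
    have h7 : sqE r u v (n + 1 + 1) ∈ Ψ := by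
      rw [e2]
      exact ht.neg _ (ht.refl _ h3 _ h1)
    have h8 := hl.one_le ht h3 h4
    have h9 : l (sqE r u v (n + 1 + 1)) = 2 * r * l (sqE r u v (n + 1)) - l (sqE r u v n) := by
      rw [e, map_sub, map_smul, smul_eq_mul]
    have h10 : l (sqE r u v (n + 1)) ≤ l (sqE r u v (n + 1 + 1)) := by
      rw [h9]
      nlinarith only [hr, h6, h8]
    have h11 := hl.pos_of ht h7 (by linarith only [h8, h10])
    refine ⟨h3, h4, h7, h11, ?_, ?_⟩
    · rw [e, map_sub, map_smul, ht.one _ h3, ht.symm (sqE r u v (n + 1)) (sqE r u v n), h5, smul_eq_mul]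
      ring
    · nlinarith only [hr, h8, h10]

private theorem sqE_rf {r : ℝ} (h1 : B x x = 1) (hB : B x y = r) (n : ℕ) :
    rf B x (sqE r y x (n + 1)) = -sqE r x y n ∧ rf B x (sqE r y x (n + 2)) = -sqE r x y (n + 1) := by
  induction n with
  | zero =>
    refine ⟨rfW_self h1, ?_⟩
    have e : sqE r y x (0 + 2) = (2 * r) • x - y := rfl
    have e' : sqE r x y (0 + 1) = y := rfl
    rw [e, e']
    unfold DY.rf
    rw [map_sub, map_smul, h1, hB, smul_eq_mul]
    module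
  | succ n ih =>
    obtain ⟨h2, h3⟩ := ih
    refine ⟨h3, ?_⟩
    have e : sqE r y x (n + 1 + 2) = (2 * r) • sqE r y x (n + 2) - sqE r y x (n + 1) := rfl
    have e' : sqE r x y (n + 1 + 1) = (2 * r) • sqE r x y (n + 1) - sqE r x y n := rfl
    have e3 : rf B x ((2 * r) • sqE r y x (n + 2) - sqE r y x (n + 1)) =
        (2 * r) • rf B x (sqE r y x (n + 2)) - rf B x (sqE r y x (n + 1)) := by
      unfold DY.rf
      simp only [map_sub, map_smul, smul_eq_mul]
      module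
    rw [e, e', e3, h2, h3]
    module

private theorem sqE_inj {r : ℝ} (ht : Tri Ψ B a b c) (hl : Ht a b c l) (hr : 1 ≤ r) {u v : E} (hu : u ∈ Ψ)
    (hup : u ∈ C01 a b c) (hv : v ∈ Ψ) (hvp : v ∈ C01 a b c) (hB : B u v = r) (h0 : l u ≤ r * l v)
    (hne : u ≠ v) : Function.Injective fun n => sqE r u v (n + 1) := by
  have hp := sqE_pos ht hl hr hu hup hv hvp hB h0
  rcases hr.eq_or_lt with h1 | h1
  · -- `r = 1`
    have key : ∀ n, sqE r u v (n + 1) = sqE r u v n + (v - u) ∧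
        sqE r u v (n + 1) = v + (n : ℝ) • (v - u) := by
      intro n
      induction n with
      | zero =>
        have e1 : sqE r u v (0 + 1) = v := rfl
        have e2 : sqE r u v 0 = u := rfl
        rw [e1, e2]
        refine ⟨by module, ?_⟩
        rw [Nat.cast_zero]
        module
      | succ n ih =>
        have e : sqE r u v (n + 1 + 1) = (2 * r) • sqE r u v (n + 1) - sqE r u v n := rfl
        have e2 : sqE r u v (n + 1 + 1) = sqE r u v (n + 1) + (v - u) := by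
          rw [e, ← h1]
          have : sqE 1 u v n = sqE 1 u v (n + 1) - (v - u) := by
            have h2 := ih.1
            rw [← h1] at h2
            rw [h2]
            module
          rw [this]
          module
        refine ⟨e2, ?_⟩
        rw [e2, ih.2, Nat.cast_add, Nat.cast_one]
        module
    intro m n hmn
    simp only [] at hmn
    rw [(key m).2, (key n).2] at hmn
    have h2 : ((m : ℝ) - n) • (v - u) = 0 := by
      have : ((m : ℝ) - n) • (v - u) = (v + (m : ℝ) • (v - u)) - (v + (n : ℝ) • (v - u)) := by module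
      rw [this, hmn, sub_self]
    rcases smul_eq_zero.1 h2 with h3 | h3
    · have : (m : ℝ) = n := by linarith only [h3]
      exact_mod_cast this
    · exact absurd (sub_eq_zero.1 h3).symm hne
  · have hmono : StrictMono fun n => l (sqE r u v (n + 1)) := by
      apply strictMono_nat_of_lt_succ
      intro n
      obtain ⟨g1, g2, g3, g4, g5, g6⟩ := hp n
      have h8 := hl.one_le ht g3 g4
      have e : sqE r u v (n + 1 + 1) = (2 * r) • sqE r u v (n + 1) - sqE r u v n := rfl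
      have h9 : l (sqE r u v (n + 1 + 1)) = 2 * r * l (sqE r u v (n + 1)) - l (sqE r u v n) := by
        rw [e, map_sub, map_smul, smul_eq_mul]
      show l (sqE r u v (n + 1)) < l (sqE r u v (n + 1 + 1))
      rw [h9]
      nlinarith only [h1, g6, h8]
    intro m n hmn
    exact hmono.injective (congrArg l hmn)

/-- a Nielsen move lowers the height -/
theorem Tri.niel (ht : Tri Ψ B a b c) (hl : Ht a b c l) (hx : x ∈ Ψ) (hxp : x ∈ C01 a b c)
    (hy : y ∈ Ψ) (hyp : y ∈ C01 a b c) (hne : x ≠ y) (hb : 0 < B x y) :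
    (∃ s : ℝ, (s = 1 ∨ s = -1) ∧ s • rf B x y ∈ Ψ ∧ s • rf B x y ∈ C01 a b c ∧ l (s • rf B x y) < l y) ∨
    (∃ s : ℝ, (s = 1 ∨ s = -1) ∧ s • rf B y x ∈ Ψ ∧ s • rf B y x ∈ C01 a b c ∧ l (s • rf B y x) < l x) := by
  by_contra hcon
  rw [not_or] at hcon
  obtain ⟨c1, c2⟩ := hcon
  have lx := hl.one_le ht hx hxp
  have ly := hl.one_le ht hy hyp
  have hs := ht.symm y x
  have key : ∀ u v : E, u ∈ Ψ → v ∈ Ψ → 1 ≤ l u → 0 < B u v →
      ¬ (∃ s : ℝ, (s = 1 ∨ s = -1) ∧ s • rf B u v ∈ Ψ ∧ s • rf B u v ∈ C01 a b c ∧ l (s • rf B u v) < l v) →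
      l v ≤ B u v * l u := by
    intro u v hu hv hlu hB hc
    by_contra h1
    have h1 := not_le.1 h1
    have e1 : l (rf B u v) = l v - 2 * B u v * l u := by
      unfold DY.rf
      rw [map_sub, map_smul, smul_eq_mul]
    rcases ht.pos _ (ht.refl u hu v hv) with h2 | h2
    · apply hc
      refine ⟨1, Or.inl rfl, ?_, ?_, ?_⟩
      · rw [one_smul]
        exact ht.refl u hu v hv
      · rw [one_smul]
        exact h2
      · rw [one_smul, e1]
        nlinarith only [hlu, hB]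
    · apply hc
      refine ⟨-1, Or.inr rfl, ?_, ?_, ?_⟩
      · rw [neg_one_smul]
        exact ht.neg _ (ht.refl u hu v hv)
      · rw [neg_one_smul]
        exact h2
      · rw [neg_one_smul, map_neg, e1]
        linarith only [h1]
  have k1 := key x y hx hy lx hb c1
  have k2 := key y x hy hx ly (by rw [hs]; exact hb) c2
  rw [hs] at k2
  obtain ⟨r, hr⟩ : ∃ r, r = B x y := ⟨_, rfl⟩
  rw [← hr] at k1 k2 hb
  have hr1 : 1 ≤ r := by
    by_contra h1
    have h1 := not_le.1 h1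
    nlinarith only [lx, ly, k2, k1, h1]
  have p1 := sqE_pos ht hl hr1 hy hyp hx hxp (by rw [hs, ← hr]) k1
  have p2 := sqE_pos ht hl hr1 hx hxp hy hyp hr.symm k2
  have hinj := sqE_inj ht hl hr1 hy hyp hx hxp (by rw [hs, ← hr]) k1 hne.symm
  refine Set.infinite_range_of_injective hinj ((ht.inv x hx).subset ?_)
  rintro _ ⟨n, rfl⟩
  have q1 := p1 n
  have q2 := p2 n
  refine ⟨q1.2.2.1, q1.2.2.2.1, ?_⟩
  show -rf B x (sqE r y x (n + 1)) ∈ C01 a b c
  rw [(sqE_rf (ht.one x hx) hr.symm n).1, neg_neg]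
  exact q2.2.1

end DY
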