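import Pool.Agent.Helper9.DY.NG

/-!
# NGi with `-B t d2 = 0` is void (MP_d13a5e_al)
-/

set_option autoImplicit false

namespace DY

/-- a good index with `φ d2 < 0` needs a label of at least `1/2` -/
theorem Good.label_pos {c f : ℝ} {k : ℕ} (h : Good c f k) (hf : f < 0) : 0 < c := by
  have h1 := h.pos hf
  have h2 := h.hs 1 h1
  have e : sq c (1 + 1) = 2 * c := by
    show 2 * c * sq c 1 - sq c 0 = 2 * c
    have e0 : sq c 0 = 0 := rfl
    have e1 : sq c 1 = 1 := rfl
    rw [e0, e1]
    ring
  rw [e] at h2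
  linarith

end DY
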